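import Mathlib

/-! Project CF: functions of two variables operating on characteristic functions. Definitions and
statements of the lemma jobs. -/

set_option autoImplicit false
set_option linter.unusedVariables false

open MeasureTheory ComplexConjugate Filter Topology

namespace Pool.Agent.Q42.CF

/-- `F` operates on pairs of characteristic functions: `F(φ₁, φ₂)` is a characteristic function whenever
`φ₁` and `φ₂` are. Only the values of `F` on the closed bidisc matter. -/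
def Adm (F : ℂ → ℂ → ℂ) : Prop :=
  ∀ μ₁ μ₂ : Measure ℝ, IsProbabilityMeasure μ₁ → IsProbabilityMeasure μ₂ →
    ∃ μ : Measure ℝ, IsProbabilityMeasure μ ∧
      ∀ ξ : ℝ, F (charFun μ₁ ξ) (charFun μ₂ ξ) = charFun μ ξ

/-- The monomial `x ^ j * conj x ^ k * y ^ l * conj y ^ m`. -/
noncomputable def mon (i : ℕ × ℕ × ℕ × ℕ) (x y : ℂ) : ℂ :=
  x ^ i.1 * conj x ^ i.2.1 * (y ^ i.2.2.1 * conj y ^ i.2.2.2)

/-- `F` is a power series in `x, conj x, y, conj y` on the closed bidisc, with nonnegative coefficients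
of sum `1`. -/
def IsSeries (F : ℂ → ℂ → ℂ) : Prop :=
  ∃ a : ℕ × ℕ × ℕ × ℕ → ℝ, (∀ i, 0 ≤ a i) ∧ HasSum a 1 ∧
    ∀ x y : ℂ, ‖x‖ ≤ 1 → ‖y‖ ≤ 1 → HasSum (fun i => (a i : ℂ) * mon i x y) (F x y)

/-- The Fourier coefficients of the Poisson kernel. -/
noncomputable def kp (x : ℂ) (b : ℤ) : ℂ := x ^ b.toNat * conj x ^ (-b).toNat

/-- Power series operate. -/
def St_conv : Prop := ∀ F : ℂ → ℂ → ℂ, IsSeries F → Adm F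

/-- Krein's inequality. -/
def St_krein : Prop :=
  ∀ (μ : Measure ℝ) (_ : IsProbabilityMeasure μ) (ξ η : ℝ),
    ‖charFun μ ξ - charFun μ η‖ ^ 2 ≤ 2 * (1 - (charFun μ (ξ - η)).re)

/-- Operating functions are bounded by `1`. -/
def St_bdd : Prop :=
  ∀ F : ℂ → ℂ → ℂ, Adm F → ∀ x y : ℂ, ‖x‖ ≤ 1 → ‖y‖ ≤ 1 → ‖F x y‖ ≤ 1

/-- The discrete Poisson kernel. -/
def St_dp : Prop :=
  ∀ x : ℂ, ‖x‖ < 1 → ∃ M₀ : ℕ, ∀ M : ℕ, M₀ ≤ M → Odd M → ∀ [NeZero M],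
    ∃ K : ZMod M → ℝ, (∀ a, 0 ≤ K a) ∧
      ∀ b : ZMod M, ∑ a, (K a : ℂ) * ZMod.stdAddChar (a * b) = kp x b.valMinAbs

/-- Operating functions are continuous on the open bidisc. -/
def St_cont : Prop :=
  ∀ F : ℂ → ℂ → ℂ, Adm F → ∀ x y : ℂ, ‖x‖ < 1 → ‖y‖ < 1 →
    ContinuousAt (fun p : ℂ × ℂ => F p.1 p.2) (x, y)

/-- Positivity of the Fourier coefficients on finite products of cyclic groups. -/
def St_pos : Prop :=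
  ∀ (F : ℂ → ℂ → ℂ), Adm F → ∀ {I : Type} [Fintype I] [DecidableEq I] (M : I → ℕ) [∀ i, NeZero (M i)]
    (hM : Pairwise fun i j => Nat.Coprime (M i) (M j)) (p q : I → ℝ) (hp : ∀ i, 0 ≤ p i)
    (hq : ∀ i, 0 ≤ q i) (hp1 : ∑ i, p i = 1) (hq1 : ∑ i, q i = 1),
    ∃ c : ((i : I) → ZMod (M i)) → ℝ, (∀ b, 0 ≤ c b) ∧ ∑ b, c b = 1 ∧
      ∀ a : (i : I) → ZMod (M i),
        F (∑ i, (p i : ℂ) * ZMod.stdAddChar (a i)) (∑ i, (q i : ℂ) * ZMod.stdAddChar (a i))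
          = ∑ b, (c b : ℂ) * ∏ i, ZMod.stdAddChar (a i * b i)

/-- Weak law of large numbers for finite product weights. -/
def St_lln : Prop :=
  ∀ {I : Type} [Fintype I] [DecidableEq I] {Z : I → Type} [∀ i, Fintype (Z i)]
    (K : (i : I) → Z i → ℝ) (hK : ∀ i a, 0 ≤ K i a) (hK1 : ∀ i, ∑ a, K i a = 1)
    (z : (i : I) → Z i → ℂ) (hz : ∀ i a, ‖z i a‖ ≤ 1) (x : ℂ) (p : I → ℝ) (hp : ∀ i, 0 ≤ p i)
    (hp1 : ∑ i, p i = 1) (hmean : ∀ i, p i ≠ 0 → ∑ a, (K i a : ℂ) * z i a = x),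
    ∑ a : (i : I) → Z i, (∏ i, K i (a i)) * ‖∑ i, (p i : ℂ) * z i (a i) - x‖ ^ 2 ≤ ∑ i, p i ^ 2

/-- Approximation by polynomials with nonnegative coefficients. -/
def St_approx : Prop :=
  ∀ F : ℂ → ℂ → ℂ, Adm F → ∃ A : ℕ → (ℕ × ℕ × ℕ × ℕ) → ℝ, (∀ N i, 0 ≤ A N i) ∧
    (∀ N, HasSum (A N) 1) ∧ ∀ x y : ℂ, ‖x‖ < 1 → ‖y‖ < 1 →
      Tendsto (fun N => ∑' i, (A N i : ℂ) * mon i x y) atTop (𝓝 (F x y))

/-- Compactness. -/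
def St_compact : Prop :=
  ∀ (G : ℂ → ℂ → ℂ) (A : ℕ → (ℕ × ℕ × ℕ × ℕ) → ℝ), (∀ N i, 0 ≤ A N i) → (∀ N, HasSum (A N) 1) →
    (∀ x y : ℂ, ‖x‖ < 1 → ‖y‖ < 1 →
      Tendsto (fun N => ∑' i, (A N i : ℂ) * mon i x y) atTop (𝓝 (G x y))) →
    ∃ a : ℕ × ℕ × ℕ × ℕ → ℝ, (∀ i, 0 ≤ a i) ∧
      (∀ s : Finset (ℕ × ℕ × ℕ × ℕ), ∑ i ∈ s, a i ≤ 1) ∧
      ∀ x y : ℂ, ‖x‖ < 1 → ‖y‖ < 1 → HasSum (fun i => (a i : ℂ) * mon i x y) (G x y)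

/-- From the open to the closed bidisc. -/
def St_bdry : Prop :=
  ∀ F : ℂ → ℂ → ℂ, Adm F → ∀ a : ℕ × ℕ × ℕ × ℕ → ℝ, (∀ i, 0 ≤ a i) →
    (∀ s : Finset (ℕ × ℕ × ℕ × ℕ), ∑ i ∈ s, a i ≤ 1) →
    (∀ x y : ℂ, ‖x‖ < 1 → ‖y‖ < 1 → HasSum (fun i => (a i : ℂ) * mon i x y) (F x y)) →
    HasSum a 1 ∧ ∀ x y : ℂ, ‖x‖ ≤ 1 → ‖y‖ ≤ 1 → HasSum (fun i => (a i : ℂ) * mon i x y) (F x y)

theorem main (h1 : St_conv) (h2 : St_approx) (h3 : St_compact) (h4 : St_bdry) (F : ℂ → ℂ → ℂ) :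
    Adm F ↔ IsSeries F := by
  refine ⟨fun h => ?_, h1 F⟩
  obtain ⟨A, hA0, hA1, hA⟩ := h2 F h
  obtain ⟨a, ha0, ha1, ha⟩ := h3 F A hA0 hA1 hA
  obtain ⟨hb1, hb⟩ := h4 F h a ha0 ha1 ha
  exact ⟨a, ha0, hb1, hb⟩

end Pool.Agent.Q42.CF
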