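import Pool.Agent.Q42.CF.Stm

/-! Project CF of helper42, job approx (helper176). -/

set_option autoImplicit false
set_option linter.unusedVariables false

open MeasureTheory ComplexConjugate Filter Topology

namespace Pool.Agent.Q42.CF

/-- the index set -/
abbrev IX (N : ℕ) : Type := Fin (N + 1) ⊕ Fin (N + 1)

/-- the numbering of the index set -/
def ixn (N : ℕ) : IX N → ℕ := Sum.elim (fun k => 2 * (k : ℕ)) (fun k => 2 * (k : ℕ) + 1)

theorem ixn_inj (N : ℕ) : Function.Injective (ixn N) := by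
  rintro (a | a) (b | b) h
  · have : (a : ℕ) = b := by
      change 2 * (a : ℕ) = 2 * (b : ℕ) at h
      omega
    rw [Fin.ext this]
  · change 2 * (a : ℕ) = 2 * (b : ℕ) + 1 at h
    omega
  · change 2 * (a : ℕ) + 1 = 2 * (b : ℕ) at h
    omega
  · have : (a : ℕ) = b := by
      change 2 * (a : ℕ) + 1 = 2 * (b : ℕ) + 1 at h
      omega
    rw [Fin.ext this]

/-- the moduli -/
noncomputable def pm (N : ℕ) (i : IX N) : ℕ := Nat.nth Nat.Prime (N + 1 + ixn N i)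

theorem pm_prime (N : ℕ) (i : IX N) : (pm N i).Prime := Nat.prime_nth_prime _

theorem pm_ge (N : ℕ) (i : IX N) : N + 3 ≤ pm N i := by
  have := Nat.add_two_le_nth_prime (N + 1 + ixn N i)
  unfold pm
  omega

theorem pm_inj (N : ℕ) : Function.Injective (pm N) := by
  intro i j h
  have h1 := Nat.nth_injective Nat.infinite_setOfPred_prime h
  exact ixn_inj N (by omega)

theorem pm_odd (N : ℕ) (i : IX N) : Odd (pm N i) :=
  (pm_prime N i).odd_of_ne_two (by have := pm_ge N i; omega)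

theorem pm_cop (N : ℕ) : Pairwise fun i j => Nat.Coprime (pm N i) (pm N j) := by
  intro i j hij
  exact (Nat.coprime_primes (pm_prime N i) (pm_prime N j)).2 fun h => hij (pm_inj N h)

instance pm_ne (N : ℕ) (i : IX N) : NeZero (pm N i) := ⟨(pm_prime N i).ne_zero⟩

/-- the degree of a character -/
noncomputable def dg {N : ℕ} (b : (i : IX N) → ZMod (pm N i)) : ℕ × ℕ × ℕ × ℕ :=
  (∑ k, (b (Sum.inl k)).valMinAbs.toNat, ∑ k, (-(b (Sum.inl k)).valMinAbs).toNat,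
    ∑ k, (b (Sum.inr k)).valMinAbs.toNat, ∑ k, (-(b (Sum.inr k)).valMinAbs).toNat)

theorem mon_dg {N : ℕ} (b : (i : IX N) → ZMod (pm N i)) (x y : ℂ) :
    mon (dg b) x y = ∏ i, kp (Sum.elim (fun _ => x) (fun _ => y) i) (b i).valMinAbs := by
  rw [Fintype.prod_sum_type]
  unfold mon dg kp
  simp only [Sum.elim_inl, Sum.elim_inr]
  rw [Finset.prod_mul_distrib, Finset.prod_mul_distrib, Finset.prod_pow_eq_pow_sum,
    Finset.prod_pow_eq_pow_sum, Finset.prod_pow_eq_pow_sum, Finset.prod_pow_eq_pow_sum]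

/-- the weights -/
noncomputable def pw (N : ℕ) : IX N → ℝ := Sum.elim (fun _ => 1 / ((N : ℝ) + 1)) (fun _ => 0)

/-- the weights -/
noncomputable def qw (N : ℕ) : IX N → ℝ := Sum.elim (fun _ => 0) (fun _ => 1 / ((N : ℝ) + 1))

theorem pw_nn (N : ℕ) (i : IX N) : 0 ≤ pw N i := by
  rcases i with i | i
  · show 0 ≤ 1 / ((N : ℝ) + 1)
    positivity
  · exact le_refl _

theorem qw_nn (N : ℕ) (i : IX N) : 0 ≤ qw N i := by
  rcases i with i | i
  · exact le_refl _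
  · show 0 ≤ 1 / ((N : ℝ) + 1)
    positivity

theorem pw_sum (N : ℕ) : ∑ i, pw N i = 1 := by
  rw [Fintype.sum_sum_type]
  simp only [pw, Sum.elim_inl, Sum.elim_inr, Finset.sum_const, Finset.card_univ, Fintype.card_fin,
    nsmul_eq_mul, mul_zero, add_zero]
  push_cast
  have : (N : ℝ) + 1 ≠ 0 := by positivity
  field_simp

theorem qw_sum (N : ℕ) : ∑ i, qw N i = 1 := by
  rw [Fintype.sum_sum_type]
  simp only [qw, Sum.elim_inl, Sum.elim_inr, Finset.sum_const, Finset.card_univ, Fintype.card_fin,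
    nsmul_eq_mul, mul_zero, zero_add]
  push_cast
  have : (N : ℝ) + 1 ≠ 0 := by positivity
  field_simp

theorem pw_sq (N : ℕ) : ∑ i, pw N i ^ 2 = 1 / ((N : ℝ) + 1) := by
  rw [Fintype.sum_sum_type]
  simp only [pw, Sum.elim_inl, Sum.elim_inr, Finset.sum_const, Finset.card_univ, Fintype.card_fin,
    nsmul_eq_mul]
  push_cast
  have : (N : ℝ) + 1 ≠ 0 := by positivity
  field_simp
  ring

theorem qw_sq (N : ℕ) : ∑ i, qw N i ^ 2 = 1 / ((N : ℝ) + 1) := by
  rw [Fintype.sum_sum_type]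
  simp only [qw, Sum.elim_inl, Sum.elim_inr, Finset.sum_const, Finset.card_univ, Fintype.card_fin,
    nsmul_eq_mul]
  push_cast
  have : (N : ℝ) + 1 ≠ 0 := by positivity
  field_simp
  ring

theorem kp_zero (x : ℂ) : kp x 0 = 1 := by
  unfold kp
  simp

theorem kp_one (x : ℂ) : kp x 1 = x := by
  unfold kp
  simp

/-- finite convex combinations of points of the disc -/
theorem comb_le {I : Type} [Fintype I] (p : I → ℝ) (hp : ∀ i, 0 ≤ p i) (hp1 : ∑ i, p i = 1)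
    (z : I → ℂ) (hz : ∀ i, ‖z i‖ ≤ 1) : ‖∑ i, (p i : ℂ) * z i‖ ≤ 1 := by
  refine (norm_sum_le _ _).trans ?_
  rw [← hp1]
  refine Finset.sum_le_sum fun i _ => ?_
  rw [norm_mul, Complex.norm_real, Real.norm_eq_abs, abs_of_nonneg (hp i)]
  have := mul_le_mul_of_nonneg_left (hz i) (hp i)
  rwa [mul_one] at this

/-- one step of the approximation -/
theorem stepN (hbdd : St_bdd) (hpos : St_pos) (hlln : St_lln) (F : ℂ → ℂ → ℂ) (hF : Adm F)
    (N : ℕ) : ∃ A : (ℕ × ℕ × ℕ × ℕ) → ℝ, (∀ i, 0 ≤ A i) ∧ HasSum A 1 ∧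
      ∀ x y : ℂ, ‖x‖ < 1 → ‖y‖ < 1 →
      (∀ M : ℕ, N ≤ M → Odd M → ∀ [NeZero M], ∃ K : ZMod M → ℝ, (∀ a, 0 ≤ K a) ∧
        ∀ b : ZMod M, ∑ a, (K a : ℂ) * ZMod.stdAddChar (a * b) = kp x b.valMinAbs) →
      (∀ M : ℕ, N ≤ M → Odd M → ∀ [NeZero M], ∃ K : ZMod M → ℝ, (∀ a, 0 ≤ K a) ∧
        ∀ b : ZMod M, ∑ a, (K a : ℂ) * ZMod.stdAddChar (a * b) = kp y b.valMinAbs) →
      ∀ ε δ : ℝ, 0 ≤ ε → 0 < δ → (∀ x' y' : ℂ, ‖x' - x‖ < δ → ‖y' - y‖ < δ →
        ‖F x' y' - F x y‖ ≤ ε) →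
      ‖∑' i, (A i : ℂ) * mon i x y - F x y‖ ≤ ε + 4 / (((N : ℝ) + 1) * δ ^ 2) := by
  classical
  obtain ⟨c, hc0, hc1, hc⟩ := hpos F hF (pm N) (pm_cop N) (pw N) (qw N) (pw_nn N) (qw_nn N)
    (pw_sum N) (qw_sum N)
  refine ⟨fun i => ∑ b, if i = dg b then c b else 0, ?_, ?_, ?_⟩
  · intro i
    refine Finset.sum_nonneg fun b _ => ?_
    split_ifs
    · exact hc0 b
    · exact le_refl _
  · rw [← hc1]
    exact hasSum_sum fun b _ => hasSum_ite_eq (dg b) (c b)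
  intro x y hx hy hKx hKy ε δ hε hδ hFc
  -- the sum
  have hsum : ∑' i, ((∑ b, if i = dg b then c b else 0 : ℝ) : ℂ) * mon i x y =
      ∑ b, (c b : ℂ) * mon (dg b) x y := by
    refine HasSum.tsum_eq ?_
    have h1 : ∀ b, HasSum (fun i => if i = dg b then (c b : ℂ) * mon (dg b) x y else 0)
        ((c b : ℂ) * mon (dg b) x y) := fun b => hasSum_ite_eq (dg b) _
    have h2 := hasSum_sum (s := Finset.univ) fun b _ => h1 b
    have h3 : (fun i => ((∑ b, if i = dg b then c b else 0 : ℝ) : ℂ) * mon i x y) =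
        fun i => ∑ b, if i = dg b then (c b : ℂ) * mon (dg b) x y else 0 := by
      funext i
      rw [Complex.ofReal_sum, Finset.sum_mul]
      refine Finset.sum_congr rfl fun b _ => ?_
      split_ifs with h
      · rw [h]
      · rw [Complex.ofReal_zero, zero_mul]
    rw [h3]
    exact h2
  rw [hsum]
  -- the kernels
  obtain ⟨xy, hxy⟩ : ∃ xy : IX N → ℂ, xy = Sum.elim (fun _ => x) (fun _ => y) := ⟨_, rfl⟩
  have hker : ∀ i : IX N, ∃ K : ZMod (pm N i) → ℝ, (∀ a, 0 ≤ K a) ∧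
      ∀ b : ZMod (pm N i), ∑ a, (K a : ℂ) * ZMod.stdAddChar (a * b) = kp (xy i) b.valMinAbs := by
    rw [hxy]
    rintro (i | i)
    · exact hKx (pm N (Sum.inl i)) (by have := pm_ge N (Sum.inl i); omega) (pm_odd N _)
    · exact hKy (pm N (Sum.inr i)) (by have := pm_ge N (Sum.inr i); omega) (pm_odd N _)
  choose K hK0 hK using hker
  have hK1 : ∀ i, ∑ a, K i a = 1 := by
    intro i
    have h := hK i 0
    simp only [mul_zero, AddChar.map_zero_eq_one, mul_one, ZMod.valMinAbs_zero, kp_zero] at h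
    exact_mod_cast h
  have hone : ∀ i, ∑ a, (K i a : ℂ) * ZMod.stdAddChar a = xy i := by
    intro i
    have h := hK i 1
    have h1 : ((1 : ℕ) : ZMod (pm N i)).valMinAbs = ((1 : ℕ) : ℤ) :=
      ZMod.valMinAbs_natCast_of_le_half (by have := pm_ge N i; omega)
    rw [Nat.cast_one, Nat.cast_one] at h1
    rw [h1, kp_one] at h
    simpa only [mul_one] using h
  obtain ⟨w, hw⟩ : ∃ w : ((i : IX N) → ZMod (pm N i)) → ℝ, w = fun a => ∏ i, K i (a i) := ⟨_, rfl⟩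
  have hw0 : ∀ a, 0 ≤ w a := by
    intro a
    rw [hw]
    exact Finset.prod_nonneg fun i _ => hK0 i _
  have hw1 : ∑ a, w a = 1 := by
    have h := Finset.prod_univ_sum (fun i : IX N => (Finset.univ : Finset (ZMod (pm N i))))
      (fun i a => K i a)
    rw [Fintype.piFinset_univ] at h
    rw [hw, ← h]
    exact Finset.prod_eq_one fun i _ => hK1 i
  obtain ⟨Z, hZ⟩ : ∃ Z : ((i : IX N) → ZMod (pm N i)) → ℂ,
    Z = fun a => ∑ i, (pw N i : ℂ) * ZMod.stdAddChar (a i) := ⟨_, rfl⟩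
  obtain ⟨V, hV⟩ : ∃ V : ((i : IX N) → ZMod (pm N i)) → ℂ,
    V = fun a => ∑ i, (qw N i : ℂ) * ZMod.stdAddChar (a i) := ⟨_, rfl⟩
  have hz : ∀ (i : IX N) (a : ZMod (pm N i)), ‖(ZMod.stdAddChar a : ℂ)‖ ≤ 1 := by
    intro i a
    rw [AddChar.norm_apply]
  have hexp : ∑ b, (c b : ℂ) * mon (dg b) x y = ∑ a, (w a : ℂ) * F (Z a) (V a) := by
    have h1 : ∀ b : (i : IX N) → ZMod (pm N i), (c b : ℂ) * mon (dg b) x y =
        ∑ a : (i : IX N) → ZMod (pm N i), (w a : ℂ) * ((c b : ℂ) *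
          ∏ i, ZMod.stdAddChar (a i * b i)) := by
      intro b
      rw [mon_dg, ← hxy, Finset.prod_congr rfl fun i _ => (hK i (b i)).symm,
        Finset.prod_univ_sum, Fintype.piFinset_univ, Finset.mul_sum]
      refine Finset.sum_congr rfl fun a _ => ?_
      rw [Finset.prod_mul_distrib, hw]
      push_cast
      ring
    rw [Finset.sum_congr rfl fun b _ => h1 b, Finset.sum_comm]
    refine Finset.sum_congr rfl fun a _ => ?_
    rw [← Finset.mul_sum, hZ, hV]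
    dsimp only
    rw [hc a]
  rw [hexp]
  have hdiff : ∑ a, (w a : ℂ) * F (Z a) (V a) - F x y =
      ∑ a, (w a : ℂ) * (F (Z a) (V a) - F x y) := by
    simp only [mul_sub]
    rw [Finset.sum_sub_distrib, ← Finset.sum_mul, ← Complex.ofReal_sum, hw1, Complex.ofReal_one,
      one_mul]
  rw [hdiff]
  have hFxy := hbdd F hF x y hx.le hy.le
  have hpt : ∀ a, ‖F (Z a) (V a) - F x y‖ ≤
      ε + 2 / δ ^ 2 * (‖Z a - x‖ ^ 2 + ‖V a - y‖ ^ 2) := by
    intro a
    have hZ1 : ‖Z a‖ ≤ 1 := by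
      rw [hZ]
      exact comb_le (pw N) (pw_nn N) (pw_sum N) _ fun i => hz i _
    have hV1 : ‖V a‖ ≤ 1 := by
      rw [hV]
      exact comb_le (qw N) (qw_nn N) (qw_sum N) _ fun i => hz i _
    have h2 : ‖F (Z a) (V a) - F x y‖ ≤ 2 := by
      have := norm_sub_le (F (Z a) (V a)) (F x y)
      have := hbdd F hF _ _ hZ1 hV1
      linarith
    have hd2 : 0 < δ ^ 2 := by positivity
    have hnn : 0 ≤ 2 / δ ^ 2 * (‖Z a - x‖ ^ 2 + ‖V a - y‖ ^ 2) := by positivity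
    by_cases h3 : ‖Z a - x‖ < δ
    · by_cases h4 : ‖V a - y‖ < δ
      · have := hFc _ _ h3 h4
        linarith
      · push Not at h4
        have h5 : δ ^ 2 ≤ ‖V a - y‖ ^ 2 := pow_le_pow_left₀ hδ.le h4 2
        have h6 : 2 / δ ^ 2 * δ ^ 2 ≤ 2 / δ ^ 2 * (‖Z a - x‖ ^ 2 + ‖V a - y‖ ^ 2) :=
          mul_le_mul_of_nonneg_left (by nlinarith [sq_nonneg ‖Z a - x‖]) (by positivity)
        rw [div_mul_cancel₀ _ hd2.ne'] at h6
        linarith
    · push Not at h3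
      have h5 : δ ^ 2 ≤ ‖Z a - x‖ ^ 2 := pow_le_pow_left₀ hδ.le h3 2
      have h6 : 2 / δ ^ 2 * δ ^ 2 ≤ 2 / δ ^ 2 * (‖Z a - x‖ ^ 2 + ‖V a - y‖ ^ 2) :=
        mul_le_mul_of_nonneg_left (by nlinarith [sq_nonneg ‖V a - y‖]) (by positivity)
      rw [div_mul_cancel₀ _ hd2.ne'] at h6
      linarith
  have l1 : ∑ a, w a * ‖Z a - x‖ ^ 2 ≤ 1 / ((N : ℝ) + 1) := by
    have h := hlln K hK0 hK1 (fun i a => (ZMod.stdAddChar a : ℂ)) hz x (pw N) (pw_nn N) (pw_sum N)
      (by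
        rintro (i | i) hi
        · rw [hone, hxy]
          rfl
        · exact absurd rfl hi)
    rw [pw_sq] at h
    rw [hw, hZ]
    exact h
  have l2 : ∑ a, w a * ‖V a - y‖ ^ 2 ≤ 1 / ((N : ℝ) + 1) := by
    have h := hlln K hK0 hK1 (fun i a => (ZMod.stdAddChar a : ℂ)) hz y (qw N) (qw_nn N) (qw_sum N)
      (by
        rintro (i | i) hi
        · exact absurd rfl hi
        · rw [hone, hxy]
          rfl)
    rw [qw_sq] at h
    rw [hw, hV]
    exact h
  calc ‖∑ a, (w a : ℂ) * (F (Z a) (V a) - F x y)‖ ≤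
      ∑ a, w a * (ε + 2 / δ ^ 2 * (‖Z a - x‖ ^ 2 + ‖V a - y‖ ^ 2)) := by
        refine (norm_sum_le _ _).trans (Finset.sum_le_sum fun a _ => ?_)
        rw [norm_mul, Complex.norm_real, Real.norm_eq_abs, abs_of_nonneg (hw0 a)]
        exact mul_le_mul_of_nonneg_left (hpt a) (hw0 a)
    _ = ε * ∑ a, w a + 2 / δ ^ 2 * (∑ a, w a * ‖Z a - x‖ ^ 2 + ∑ a, w a * ‖V a - y‖ ^ 2) := by
        rw [Finset.mul_sum, ← Finset.sum_add_distrib, Finset.mul_sum, ← Finset.sum_add_distrib]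
        refine Finset.sum_congr rfl fun a _ => ?_
        ring
    _ ≤ ε + 2 / δ ^ 2 * (1 / ((N : ℝ) + 1) + 1 / ((N : ℝ) + 1)) := by
        rw [hw1, mul_one]
        have := mul_le_mul_of_nonneg_left (add_le_add l1 l2) (by positivity : 0 ≤ 2 / δ ^ 2)
        linarith
    _ = ε + 4 / (((N : ℝ) + 1) * δ ^ 2) := by
        have h1 : (N : ℝ) + 1 ≠ 0 := by positivity
        field_simp
        ring

/-- JOB approx. -/
theorem approx : St_bdd → St_dp → St_cont → St_pos → St_lln → St_approx := by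
  intro hbdd hdp hcont hpos hlln F hF
  choose A hA0 hA1 hA using stepN hbdd hpos hlln F hF
  refine ⟨A, hA0, hA1, fun x y hx hy => ?_⟩
  obtain ⟨Mx, hMx⟩ := hdp x hx
  obtain ⟨My, hMy⟩ := hdp y hy
  rw [Metric.tendsto_atTop]
  intro ε hε
  obtain ⟨δ, hδ, hFc⟩ := Metric.continuousAt_iff.1 (hcont F hF x y hx hy) (ε / 2) (by linarith)
  obtain ⟨N0, hN0⟩ := exists_nat_gt (4 / (δ ^ 2 * (ε / 2)))
  refine ⟨max N0 (max Mx My), fun N hN => ?_⟩
  have h1 : N0 ≤ N := (le_max_left _ _).trans hN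
  have h2 : Mx ≤ N := ((le_max_left _ _).trans (le_max_right _ _)).trans hN
  have h3 : My ≤ N := ((le_max_right _ _).trans (le_max_right _ _)).trans hN
  have h4 := hA N x y hx hy (fun M hM ho => hMx M (h2.trans hM) ho)
    (fun M hM ho => hMy M (h3.trans hM) ho) (ε / 2) δ (by linarith) hδ (by
      intro x' y' hx' hy'
      have h5 := hFc (x := (x', y')) (by
        rw [Prod.dist_eq, dist_eq_norm, dist_eq_norm]
        exact max_lt hx' hy')
      rw [dist_eq_norm] at h5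
      exact h5.le)
  rw [dist_eq_norm]
  refine lt_of_le_of_lt h4 ?_
  have h5 : (N0 : ℝ) ≤ N := by exact_mod_cast h1
  have h6 : 4 / (((N : ℝ) + 1) * δ ^ 2) < ε / 2 := by
    rw [div_lt_iff₀ (by positivity)]
    rw [div_lt_iff₀ (by positivity)] at hN0
    have h7 : (N0 : ℝ) * (δ ^ 2 * (ε / 2)) ≤ ((N : ℝ) + 1) * (δ ^ 2 * (ε / 2)) :=
      mul_le_mul_of_nonneg_right (by linarith) (by positivity)
    nlinarith
  linarith

end Pool.Agent.Q42.CF
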