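import Pool.Agent.Q42.CF.Stm

set_option autoImplicit false

open MeasureTheory ComplexConjugate Filter Topology

namespace Pool.Agent.Q42.CF

/-- Every point of the closed disc is the value at `1` of a characteristic function. -/
theorem BddJ.exists_charFun_one (x : ℂ) (hx : ‖x‖ ≤ 1) :
    ∃ μ : Measure ℝ, IsProbabilityMeasure μ ∧ charFun μ 1 = x := by
  obtain ⟨r, hr⟩ : ∃ r, r = ‖x‖ := ⟨_, rfl⟩
  obtain ⟨θ, hθ⟩ : ∃ θ, θ = Complex.arg x := ⟨_, rfl⟩
  have hr0 : 0 ≤ r := by rw [hr]; exact norm_nonneg x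
  have hr1 : r ≤ 1 := by rw [hr]; exact hx
  refine ⟨ENNReal.ofReal ((1 + r) / 2) • Measure.dirac θ +
    ENNReal.ofReal ((1 - r) / 2) • Measure.dirac (θ + Real.pi), ⟨?_⟩, ?_⟩
  · simp only [Measure.coe_add, Measure.coe_smul, Pi.add_apply, Pi.smul_apply, measure_univ,
      smul_eq_mul, mul_one]
    rw [← ENNReal.ofReal_add (by linarith) (by linarith)]
    ring_nf
    simp
  · rw [charFun_apply_real, integral_add_measure, integral_smul_measure, integral_smul_measure,
      integral_dirac, integral_dirac, ENNReal.toReal_ofReal (by linarith),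
      ENNReal.toReal_ofReal (by linarith)]
    · have h1 : Complex.exp (((1 : ℝ) : ℂ) * ((θ + Real.pi : ℝ) : ℂ) * Complex.I) =
          -Complex.exp (((1 : ℝ) : ℂ) * (θ : ℂ) * Complex.I) := by
        push_cast
        rw [one_mul, one_mul, add_mul, Complex.exp_add, Complex.exp_pi_mul_I]
        ring
      rw [h1]
      have h2 : (r : ℂ) * Complex.exp (θ * Complex.I) = x := by
        rw [hr, hθ]
        exact Complex.norm_mul_exp_arg_mul_I x
      rw [Complex.ofReal_one, one_mul]
      simp only [Complex.real_smul]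
      push_cast
      linear_combination h2
    · refine Integrable.smul_measure ?_ ENNReal.ofReal_ne_top
      exact integrable_dirac (by simp)
    · refine Integrable.smul_measure ?_ ENNReal.ofReal_ne_top
      exact integrable_dirac (by simp)

theorem bdd : St_bdd := by
  intro F hF x y hx hy
  obtain ⟨μ₁, h1, h1'⟩ := BddJ.exists_charFun_one x hx
  obtain ⟨μ₂, h2, h2'⟩ := BddJ.exists_charFun_one y hy
  obtain ⟨μ, hμ, h⟩ := hF μ₁ μ₂ h1 h2
  rw [← h1', ← h2', h]
  exact norm_charFun_le_one 1

end Pool.Agent.Q42.CF
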