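import Pool.Agent.Q42.CF.bdd

set_option autoImplicit false

open MeasureTheory ComplexConjugate Filter Topology

namespace Pool.Agent.Q42.CF

namespace BdryJ

/-- The symmetric two point measure on `0` and `2 π`. -/
noncomputable def kap : Measure ℝ :=
  ENNReal.ofReal (1 / 2) • Measure.dirac 0 + ENNReal.ofReal (1 / 2) • Measure.dirac (2 * Real.pi)

theorem kap_prob : IsProbabilityMeasure kap := by
  refine ⟨?_⟩
  unfold kap
  simp only [Measure.coe_add, Measure.coe_smul, Pi.add_apply, Pi.smul_apply, measure_univ,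
    smul_eq_mul, mul_one]
  rw [← ENNReal.ofReal_add (by norm_num) (by norm_num)]
  norm_num

theorem kap_cf (ξ : ℝ) : charFun kap ξ =
    (1 + Complex.exp (((ξ * (2 * Real.pi) : ℝ) : ℂ) * Complex.I)) / 2 := by
  unfold kap
  rw [charFun_apply_real, integral_add_measure, integral_smul_measure, integral_smul_measure,
      integral_dirac, integral_dirac, ENNReal.toReal_ofReal (by norm_num)]
  · simp only [Complex.real_smul]
    push_cast
    rw [mul_zero, zero_mul, Complex.exp_zero]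
    ring
  · refine Integrable.smul_measure ?_ ENNReal.ofReal_ne_top
    exact integrable_dirac (by simp)
  · refine Integrable.smul_measure ?_ ENNReal.ofReal_ne_top
    exact integrable_dirac (by simp)

theorem kap_one : charFun kap 1 = 1 := by
  rw [kap_cf]
  have : (((1 * (2 * Real.pi) : ℝ) : ℂ)) * Complex.I = 2 * Real.pi * Complex.I := by
    push_cast
    ring
  rw [this, Complex.exp_two_pi_mul_I]
  norm_num

theorem kap_lt (s : ℝ) (hs : 0 < s) (hs2 : s ≤ 1 / 2) : ‖charFun kap (1 + s)‖ < 1 := by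
  rw [kap_cf]
  have h1 : (((1 + s) * (2 * Real.pi) : ℝ) : ℂ) * Complex.I =
      ((s * (2 * Real.pi) : ℝ) : ℂ) * Complex.I + 2 * Real.pi * Complex.I := by
    push_cast
    ring
  rw [h1, Complex.exp_add, Complex.exp_two_pi_mul_I, mul_one]
  have h2 : Real.cos (s * (2 * Real.pi)) < 1 := by
    rw [← Real.cos_zero]
    apply Real.cos_lt_cos_of_nonneg_of_le_pi le_rfl
    · nlinarith [Real.pi_pos]
    · have := Real.pi_pos
      positivity
  have h3 : ‖(1 + Complex.exp (((s * (2 * Real.pi) : ℝ) : ℂ) * Complex.I)) / 2‖ ^ 2 < 1 := by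
    rw [Complex.sq_norm, Complex.normSq_apply]
    have e1 : ((1 + Complex.exp (((s * (2 * Real.pi) : ℝ) : ℂ) * Complex.I)) / 2).re =
        (1 + Real.cos (s * (2 * Real.pi))) / 2 := by
      rw [show (2 : ℂ) = ((2 : ℝ) : ℂ) by norm_num, Complex.div_ofReal_re, Complex.add_re,
        Complex.one_re, Complex.exp_ofReal_mul_I_re]
    have e2 : ((1 + Complex.exp (((s * (2 * Real.pi) : ℝ) : ℂ) * Complex.I)) / 2).im =
        (Real.sin (s * (2 * Real.pi))) / 2 := by
      rw [show (2 : ℂ) = ((2 : ℝ) : ℂ) by norm_num, Complex.div_ofReal_im, Complex.add_im,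
        Complex.one_im, Complex.exp_ofReal_mul_I_im, zero_add]
    rw [e1, e2]
    nlinarith [Real.sin_sq_add_cos_sq (s * (2 * Real.pi))]
  nlinarith [norm_nonneg ((1 + Complex.exp (((s * (2 * Real.pi) : ℝ) : ℂ) * Complex.I)) / 2)]

/-- A measure whose characteristic function takes the value `x` at `1` and values of norm less than
`1` on `(1, 3/2]`. -/
theorem exists_cf (x : ℂ) (hx : ‖x‖ ≤ 1) :
    ∃ μ : Measure ℝ, IsProbabilityMeasure μ ∧ charFun μ 1 = x ∧
      ∀ s : ℝ, 0 < s → s ≤ 1 / 2 → ‖charFun μ (1 + s)‖ < 1 := by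
  obtain ⟨μ, hμ, h⟩ := BddJ.exists_charFun_one x hx
  have := kap_prob
  refine ⟨Measure.conv μ kap, inferInstance, ?_, fun s hs hs2 => ?_⟩
  · rw [charFun_conv, h, kap_one, mul_one]
  · rw [charFun_conv, norm_mul]
    have h1 := norm_charFun_le_one (μ := μ) (1 + s)
    have h2 := kap_lt s hs hs2
    nlinarith [norm_nonneg (charFun μ (1 + s)), norm_nonneg (charFun kap (1 + s))]

theorem mon_le (i : ℕ × ℕ × ℕ × ℕ) (x y : ℂ) (hx : ‖x‖ ≤ 1) (hy : ‖y‖ ≤ 1) : ‖mon i x y‖ ≤ 1 := by
  unfold mon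
  rw [norm_mul, norm_mul, norm_mul, norm_pow, norm_pow, norm_pow, norm_pow, RCLike.norm_conj,
    RCLike.norm_conj]
  have h1 : ‖x‖ ^ i.1 * ‖x‖ ^ i.2.1 ≤ 1 :=
    mul_le_one₀ (pow_le_one₀ (norm_nonneg _) hx) (by positivity) (pow_le_one₀ (norm_nonneg _) hx)
  have h2 : ‖y‖ ^ i.2.2.1 * ‖y‖ ^ i.2.2.2 ≤ 1 :=
    mul_le_one₀ (pow_le_one₀ (norm_nonneg _) hy) (by positivity) (pow_le_one₀ (norm_nonneg _) hy)
  exact mul_le_one₀ h1 (by positivity) h2

theorem mon_cont (i : ℕ × ℕ × ℕ × ℕ) : Continuous fun p : ℂ × ℂ => mon i p.1 p.2 := by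
  unfold mon
  have : Continuous (fun z : ℂ => conj z) := Complex.continuous_conj
  fun_prop

end BdryJ

open BdryJ in
theorem bdry : St_bdry := by
  intro F hF a ha0 ha1 haF
  have hsum : Summable a := summable_of_sum_le ha0 ha1
  have key : ∀ x y : ℂ, ‖x‖ ≤ 1 → ‖y‖ ≤ 1 → HasSum (fun i => (a i : ℂ) * mon i x y) (F x y) := by
    intro x y hx hy
    have hsx : Summable fun i => (a i : ℂ) * mon i x y := by
      refine Summable.of_norm_bounded hsum fun i => ?_
      rw [norm_mul, Complex.norm_real, Real.norm_of_nonneg (ha0 i)]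
      exact mul_le_of_le_one_right (ha0 i) (mon_le i x y hx hy)
    obtain ⟨μ₁, h1, h1x, h1l⟩ := exists_cf x hx
    obtain ⟨μ₂, h2, h2y, h2l⟩ := exists_cf y hy
    obtain ⟨μ, hμ, h⟩ := hF μ₁ μ₂ h1 h2
    obtain ⟨s, hs⟩ : ∃ s : ℕ → ℝ, s = fun n : ℕ => 1 / ((n : ℝ) + 2) := ⟨_, rfl⟩
    have hs0 : ∀ n, 0 < s n := fun n => by rw [hs]; positivity
    have hs2 : ∀ n, s n ≤ 1 / 2 := fun n => by
      rw [hs]
      apply one_div_le_one_div_of_le (by norm_num)
      have : (0 : ℝ) ≤ n := by positivity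
      linarith
    have hst : Tendsto (fun n => 1 + s n) atTop (𝓝 1) := by
      have h3 : Tendsto s atTop (𝓝 0) := by
        rw [hs]
        have := tendsto_one_div_atTop_nhds_zero_nat (𝕜 := ℝ)
        have h4 := (tendsto_add_atTop_iff_nat 2).mpr this
        refine h4.congr fun n => ?_
        push_cast
        rfl
      simpa using tendsto_const_nhds.add h3
    have t1 : Tendsto (fun n => charFun μ₁ (1 + s n)) atTop (𝓝 x) := by
      rw [← h1x]
      exact (continuous_charFun.tendsto 1).comp hst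
    have t2 : Tendsto (fun n => charFun μ₂ (1 + s n)) atTop (𝓝 y) := by
      rw [← h2y]
      exact (continuous_charFun.tendsto 1).comp hst
    have t3 : Tendsto (fun n => charFun μ (1 + s n)) atTop (𝓝 (F x y)) := by
      rw [← h1x, ← h2y, h]
      exact (continuous_charFun.tendsto 1).comp hst
    have t4 : Tendsto (fun n => ∑' i, (a i : ℂ) * mon i (charFun μ₁ (1 + s n))
        (charFun μ₂ (1 + s n))) atTop (𝓝 (∑' i, (a i : ℂ) * mon i x y)) := by
      apply tendsto_tsum_of_dominated_convergence hsum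
      · intro i
        exact (((mon_cont i).tendsto (x, y)).comp (t1.prodMk_nhds t2)).const_mul _
      · refine Eventually.of_forall fun n i => ?_
        rw [norm_mul, Complex.norm_real, Real.norm_of_nonneg (ha0 i)]
        exact mul_le_of_le_one_right (ha0 i)
          (mon_le i _ _ (norm_charFun_le_one _) (norm_charFun_le_one _))
    have t5 : ∀ n, ∑' i, (a i : ℂ) * mon i (charFun μ₁ (1 + s n)) (charFun μ₂ (1 + s n)) =
        charFun μ (1 + s n) := by
      intro n
      rw [← h]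
      exact (haF _ _ (h1l (s n) (hs0 n) (hs2 n)) (h2l (s n) (hs0 n) (hs2 n))).tsum_eq
    simp_rw [t5] at t4
    have := tendsto_nhds_unique t3 t4
    rw [this]
    exact hsx.hasSum
  refine ⟨?_, key⟩
  have h1 := key 1 1 (by simp) (by simp)
  have h2 : F 1 1 = 1 := by
    obtain ⟨μ, hμ, h⟩ := hF (Measure.dirac 0) (Measure.dirac 0) inferInstance inferInstance
    have h3 := h 0
    rw [charFun_zero, charFun_zero] at h3
    simpa using h3
  rw [h2] at h1
  have h3 : ∀ i : ℕ × ℕ × ℕ × ℕ, mon i 1 1 = 1 := by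
    intro i
    simp [mon]
  simp_rw [h3, mul_one] at h1
  have h4 : HasSum (fun i => ((a i : ℝ) : ℂ)) ((1 : ℝ) : ℂ) := by simpa using h1
  exact Complex.hasSum_ofReal.mp h4

end Pool.Agent.Q42.CF
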