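import Pool.Agent.Q42.CF.Stm

/-! Job compact of project CF (helper42), by helper65. -/

set_option autoImplicit false

open Filter Topology ComplexConjugate

namespace Pool.Agent.Q42.CF

theorem mon_summable (x y : ℂ) (hx : ‖x‖ < 1) (hy : ‖y‖ < 1) : Summable fun i => ‖mon i x y‖ := by
  have hgx : Summable fun n : ℕ => ‖x‖ ^ n := summable_geometric_of_lt_one (norm_nonneg x) hx
  have hgy : Summable fun n : ℕ => ‖y‖ ^ n := summable_geometric_of_lt_one (norm_nonneg y) hy
  have h0x : 0 ≤ fun n : ℕ => ‖x‖ ^ n := fun n => by positivity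
  have h0y : 0 ≤ fun n : ℕ => ‖y‖ ^ n := fun n => by positivity
  have h1 := hgy.mul_of_nonneg hgy h0y h0y
  have h2 := hgx.mul_of_nonneg h1 h0x (fun p => by positivity)
  have h3 := hgx.mul_of_nonneg h2 h0x (fun p => by positivity)
  refine h3.congr fun i => ?_
  unfold mon
  rw [norm_mul, norm_mul, norm_mul, norm_pow, norm_pow, norm_pow, norm_pow, Complex.norm_conj, Complex.norm_conj]
  ring

theorem compact : St_compact := by
  intro G A hA0 hA1 hG
  have hle1 : ∀ N i, A N i ≤ 1 := fun N i => le_hasSum (hA1 N) i fun j _ => hA0 N j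
  -- limits along an ultrafilter
  have hU : (↑(hyperfilter ℕ) : Filter ℕ) ≤ atTop := Nat.hyperfilter_le_atTop
  have hlim : ∀ i, ∃ c ∈ Set.Icc (0 : ℝ) 1, Tendsto (fun N => A N i) (hyperfilter ℕ : Filter ℕ) (𝓝 c) := by
    intro i
    have h1 : ((hyperfilter ℕ).map (fun N => A N i) : Filter ℝ) ≤ 𝓟 (Set.Icc (0 : ℝ) 1) := by
      rw [le_principal_iff, Ultrafilter.mem_coe, Ultrafilter.mem_map]
      refine Filter.univ_mem' fun N => ?_
      exact ⟨hA0 N i, hle1 N i⟩
    obtain ⟨c, hc, h2⟩ := isCompact_Icc.ultrafilter_le_nhds _ h1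
    exact ⟨c, hc, h2⟩
  choose a ha hat using hlim
  refine ⟨a, fun i => (ha i).1, ?_, ?_⟩
  · intro s
    have h1 : Tendsto (fun N => ∑ i ∈ s, A N i) (hyperfilter ℕ : Filter ℕ) (𝓝 (∑ i ∈ s, a i)) :=
      tendsto_finsetSum _ fun i _ => hat i
    refine le_of_tendsto h1 (Filter.Eventually.of_forall fun N => ?_)
    exact sum_le_hasSum s (fun i _ => hA0 N i) (hA1 N)
  · intro x y hx hy
    have hm := mon_summable x y hx hy
    have hsum : Summable fun i => (a i : ℂ) * mon i x y := by
      refine Summable.of_norm_bounded hm fun i => ?_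
      rw [norm_mul, Complex.norm_real, Real.norm_eq_abs, abs_of_nonneg (ha i).1]
      exact mul_le_of_le_one_left (norm_nonneg _) (ha i).2
    have h2 : Tendsto (fun N => ∑' i, (A N i : ℂ) * mon i x y) (hyperfilter ℕ : Filter ℕ)
        (𝓝 (∑' i, (a i : ℂ) * mon i x y)) := by
      refine tendsto_tsum_of_dominated_convergence hm (fun i => ?_) (Filter.Eventually.of_forall fun N i => ?_)
      · exact ((Complex.continuous_ofReal.tendsto _).comp (hat i)).mul_const _
      · rw [norm_mul, Complex.norm_real, Real.norm_eq_abs, abs_of_nonneg (hA0 N i)]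
        exact mul_le_of_le_one_left (norm_nonneg _) (hle1 N i)
    have h3 := (hG x y hx hy).mono_left hU
    rw [tendsto_nhds_unique h3 h2]
    exact hsum.hasSum

end Pool.Agent.Q42.CF
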