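import Pool.Agent.Q42.CF.Stm

/-! Project CF, job cont (helper208): operating functions are continuous on the open bidisc. -/

set_option autoImplicit false

open MeasureTheory ComplexConjugate Filter Topology

namespace Pool.Agent.Q42.CF

namespace ContJ

theorem integ (μ : Measure ℝ) [IsFiniteMeasure μ] (t : ℝ) :
    Integrable (fun x : ℝ => Complex.exp (t * x * Complex.I)) μ := by
  refine (integrable_const (1 : ℝ)).mono (by fun_prop) (Eventually.of_forall fun x => ?_)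
  have : (t : ℂ) * x * Complex.I = ((t * x : ℝ) : ℂ) * Complex.I := by push_cast; ring
  rw [this, Complex.norm_exp_ofReal_mul_I]
  simp

/-- discrete measures -/
theorem disc {ι : Type} [Fintype ι] (c : ι → ℝ) (hc : ∀ i, 0 ≤ c i) (h1 : ∑ i, c i = 1)
    (t : ι → ℝ) : ∃ μ : Measure ℝ, IsProbabilityMeasure μ ∧
      ∀ ξ : ℝ, charFun μ ξ = ∑ i, (c i : ℂ) * Complex.exp (ξ * t i * Complex.I) := by
  refine ⟨∑ i, ENNReal.ofReal (c i) • Measure.dirac (t i), ⟨?_⟩, fun ξ => ?_⟩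
  · rw [Measure.coe_finsetSum, Finset.sum_apply]
    simp only [Measure.smul_apply, measure_univ, smul_eq_mul, mul_one]
    rw [← ENNReal.ofReal_sum_of_nonneg fun i _ => hc i, h1, ENNReal.ofReal_one]
  · rw [charFun_apply_real, integral_finsetSum_measure]
    · refine Finset.sum_congr rfl fun i _ => ?_
      rw [integral_smul_measure, integral_dirac, ENNReal.toReal_ofReal (hc i), Complex.real_smul]
    · intro i _
      exact (integ _ ξ).smul_measure ENNReal.ofReal_ne_top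

/-- convex combinations -/
theorem mix {μ ν : Measure ℝ} (hμ : IsProbabilityMeasure μ) (hν : IsProbabilityMeasure ν) {ε : ℝ}
    (h0 : 0 ≤ ε) (h1 : ε ≤ 1) : ∃ κ : Measure ℝ, IsProbabilityMeasure κ ∧
      ∀ ξ : ℝ, charFun κ ξ = (1 - ε : ℝ) * charFun μ ξ + (ε : ℝ) * charFun ν ξ := by
  refine ⟨ENNReal.ofReal (1 - ε) • μ + ENNReal.ofReal ε • ν, ⟨?_⟩, fun ξ => ?_⟩
  · simp only [Measure.coe_add, Measure.coe_smul, Pi.add_apply, Pi.smul_apply, measure_univ,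
      smul_eq_mul, mul_one]
    rw [← ENNReal.ofReal_add (by linarith) h0]
    simp
  · rw [charFun_apply_real, integral_add_measure, integral_smul_measure, integral_smul_measure,
      ENNReal.toReal_ofReal (by linarith), ENNReal.toReal_ofReal h0, ← charFun_apply_real,
      ← charFun_apply_real, Complex.real_smul, Complex.real_smul]
    · exact (integ _ ξ).smul_measure ENNReal.ofReal_ne_top
    · exact (integ _ ξ).smul_measure ENNReal.ofReal_ne_top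

theorem exp_char (M : ℕ) [NeZero M] (a : ZMod M) (n : ℕ) :
    Complex.exp ((n : ℝ) * (2 * Real.pi * a.val / M : ℝ) * Complex.I) =
      ZMod.stdAddChar (a * (n : ZMod M)) := by
  have h1 : a * (n : ZMod M) = (((a.val * n : ℕ) : ℤ) : ZMod M) := by
    push_cast
    rw [ZMod.natCast_zmod_val]
  rw [h1, ZMod.stdAddChar_coe]
  congr 1
  push_cast
  ring

/-- measures on the cyclic group -/
theorem cyc (M : ℕ) [NeZero M] (c : ZMod M → ℝ) (hc : ∀ i, 0 ≤ c i) (h1 : ∑ i, c i = 1) :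
    ∃ μ : Measure ℝ, IsProbabilityMeasure μ ∧
      ∀ n : ℕ, charFun μ (n : ℝ) = ∑ a, (c a : ℂ) * ZMod.stdAddChar (a * (n : ZMod M)) := by
  obtain ⟨μ, hμ, h⟩ := disc c hc h1 (fun a => 2 * Real.pi * a.val / M)
  refine ⟨μ, hμ, fun n => ?_⟩
  rw [h]
  refine Finset.sum_congr rfl fun a _ => ?_
  rw [← exp_char]

theorem orth (q : ℕ) [NeZero q] (n : ZMod q) :
    ∑ a : ZMod q, ZMod.stdAddChar (a * n) = if n = 0 then (q : ℂ) else 0 := by
  rw [AddChar.sum_mulShift _ (ZMod.isPrimitive_stdAddChar q), ZMod.card]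
  split_ifs <;> simp

theorem nz {q m : ℕ} (h0 : 0 < m) (h : m < q) : ((m : ℕ) : ZMod q) ≠ 0 := by
  intro h1
  rw [ZMod.natCast_eq_zero_iff] at h1
  exact absurd (Nat.le_of_dvd h0 h1) (by omega)

/-- the second measure -/
theorem second (p : ℕ) (hp : 1 ≤ p) (w : ℂ) (hw : ‖w‖ ≤ 1 / 2) :
    ∃ μ : Measure ℝ, IsProbabilityMeasure μ ∧ charFun μ ((1 : ℕ) : ℝ) = 0 ∧
      charFun μ (p : ℝ) = 0 ∧ charFun μ ((p + 1 : ℕ) : ℝ) = w := by
  obtain ⟨q, hq⟩ : ∃ q, q = 2 * p + 3 := ⟨_, rfl⟩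
  have : NeZero q := ⟨by omega⟩
  have hq0 : (0 : ℝ) < q := by exact_mod_cast (by omega : 0 < q)
  obtain ⟨c, hc⟩ : ∃ c : ZMod q → ℝ, c = fun a => (1 / q : ℝ) *
      (1 + 2 * (w * ZMod.stdAddChar (-(a * ((p + 1 : ℕ) : ZMod q)))).re) := ⟨_, rfl⟩
  have hχ : ∀ a : ZMod q, ‖(ZMod.stdAddChar a : ℂ)‖ = 1 := fun a => AddChar.norm_apply _ a
  have hc0 : ∀ a, 0 ≤ c a := by
    intro a
    rw [hc]
    have h1 := Complex.abs_re_le_norm (w * ZMod.stdAddChar (-(a * ((p + 1 : ℕ) : ZMod q))))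
    rw [norm_mul, hχ, mul_one] at h1
    have h2 := (abs_le.1 h1).1
    have h3 : 0 ≤ 1 + 2 * (w * ZMod.stdAddChar (-(a * ((p + 1 : ℕ) : ZMod q)))).re := by linarith
    positivity
  -- the coefficients
  have hcc : ∀ (n a : ZMod q), (c a : ℂ) * ZMod.stdAddChar (a * n) = (1 / q : ℂ) *
      (ZMod.stdAddChar (a * n) + w * ZMod.stdAddChar (a * (n - ((p + 1 : ℕ) : ZMod q))) +
        conj w * ZMod.stdAddChar (a * (n + ((p + 1 : ℕ) : ZMod q)))) := by
    intro n a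
    have h1 : ((2 * (w * ZMod.stdAddChar (-(a * ((p + 1 : ℕ) : ZMod q)))).re : ℝ) : ℂ) =
        w * ZMod.stdAddChar (-(a * ((p + 1 : ℕ) : ZMod q))) +
          conj w * ZMod.stdAddChar (a * ((p + 1 : ℕ) : ZMod q)) := by
      have h2 := Complex.add_conj (w * ZMod.stdAddChar (-(a * ((p + 1 : ℕ) : ZMod q))))
      rw [← h2, map_mul, ← AddChar.map_neg_eq_conj, neg_neg]
    have h3 : (ZMod.stdAddChar (a * (n - ((p + 1 : ℕ) : ZMod q))) : ℂ) =
        ZMod.stdAddChar (a * n) * ZMod.stdAddChar (-(a * ((p + 1 : ℕ) : ZMod q))) := by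
      rw [mul_sub, sub_eq_add_neg, AddChar.map_add_eq_mul]
    have h4 : (ZMod.stdAddChar (a * (n + ((p + 1 : ℕ) : ZMod q))) : ℂ) =
        ZMod.stdAddChar (a * n) * ZMod.stdAddChar (a * ((p + 1 : ℕ) : ZMod q)) := by
      rw [mul_add, AddChar.map_add_eq_mul]
    rw [hc]
    simp only
    rw [Complex.ofReal_mul, Complex.ofReal_add, h1, h3, h4]
    push_cast
    ring
  have hsum : ∀ n : ZMod q, ∑ a, (c a : ℂ) * ZMod.stdAddChar (a * n) =
      (if n = 0 then 1 else 0) + w * (if n - ((p + 1 : ℕ) : ZMod q) = 0 then 1 else 0) +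
        conj w * (if n + ((p + 1 : ℕ) : ZMod q) = 0 then 1 else 0) := by
    intro n
    rw [Finset.sum_congr rfl fun a _ => hcc n a, ← Finset.mul_sum, Finset.sum_add_distrib,
      Finset.sum_add_distrib, ← Finset.mul_sum, ← Finset.mul_sum, orth, orth, orth]
    have hqc : (q : ℂ) ≠ 0 := by exact_mod_cast hq0.ne'
    split_ifs <;> field_simp <;> ring
  have n1 : ((1 : ℕ) : ZMod q) ≠ 0 := nz (by norm_num) (by omega)
  have np : ((p : ℕ) : ZMod q) ≠ 0 := nz (by omega) (by omega)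
  have np1 : ((p + 1 : ℕ) : ZMod q) ≠ 0 := nz (by omega) (by omega)
  have np2 : ((p + 2 : ℕ) : ZMod q) ≠ 0 := nz (by omega) (by omega)
  have n2p1 : ((2 * p + 1 : ℕ) : ZMod q) ≠ 0 := nz (by omega) (by omega)
  have n2p2 : ((2 * p + 2 : ℕ) : ZMod q) ≠ 0 := nz (by omega) (by omega)
  have hc1 : ∑ a, c a = 1 := by
    have h1 := hsum 0
    simp only [mul_zero, AddChar.map_zero_eq_one, mul_one, if_true, zero_sub, zero_add,
      neg_eq_zero, np1, if_false, add_zero] at h1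
    exact_mod_cast h1
  obtain ⟨μ, hμ, h⟩ := cyc q c hc0 hc1
  refine ⟨μ, hμ, ?_, ?_, ?_⟩
  · rw [h, hsum, if_neg n1, if_neg, if_neg]
    · ring
    · intro h1
      exact np2 (by rw [← h1]; push_cast; ring)
    · intro h1
      exact np (by rw [← neg_eq_zero, ← h1]; push_cast; ring)
  · rw [h, hsum, if_neg np, if_neg, if_neg]
    · ring
    · intro h1
      exact n2p1 (by rw [← h1]; push_cast; ring)
    · intro h1
      exact n1 (by rw [← neg_eq_zero, ← h1]; push_cast; ring)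
  · rw [h, hsum, if_neg np1, if_pos (sub_self _), if_neg]
    · ring
    · intro h1
      exact n2p2 (by rw [← h1]; push_cast; ring)

/-- the first measure -/
theorem first {p : ℕ} (hp : 3 ≤ p) {x : ℂ} [NeZero p]
    (hK : ∃ K : ZMod p → ℝ, (∀ a, 0 ≤ K a) ∧
      ∀ b : ZMod p, ∑ a, (K a : ℂ) * ZMod.stdAddChar (a * b) = kp x b.valMinAbs) :
    ∃ μ : Measure ℝ, IsProbabilityMeasure μ ∧ charFun μ ((1 : ℕ) : ℝ) = x ∧
      charFun μ (p : ℝ) = 1 ∧ charFun μ ((p + 1 : ℕ) : ℝ) = x := by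
  obtain ⟨K, hK0, hK⟩ := hK
  have e0 : kp x 0 = 1 := by simp [kp]
  have e1 : kp x 1 = x := by simp [kp]
  have hv0 : ((0 : ZMod p)).valMinAbs = 0 := ZMod.valMinAbs_zero p
  have hv1 : ((1 : ZMod p)).valMinAbs = 1 := by
    have h1 := ZMod.valMinAbs_natCast_of_le_half (n := p) (a := 1) (by omega)
    rw [Nat.cast_one] at h1
    rw [h1]
    rfl
  have hs1 : ∑ a, K a = 1 := by
    have h1 := hK 0
    rw [hv0, e0] at h1
    simp only [mul_zero, AddChar.map_zero_eq_one, mul_one] at h1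
    exact_mod_cast h1
  obtain ⟨μ, hμ, h⟩ := cyc p K hK0 hs1
  refine ⟨μ, hμ, ?_, ?_, ?_⟩
  · rw [h, Nat.cast_one, hK, hv1, e1]
  · rw [h, ZMod.natCast_self, hK, hv0, e0]
  · rw [h, Nat.cast_add, ZMod.natCast_self, zero_add, Nat.cast_one, hK, hv1, e1]

/-- the measures used for Krein's inequality -/
theorem both {p : ℕ} (hp : 3 ≤ p) {x x' : ℂ} {ε : ℝ} (h0 : 0 < ε) (h1 : ε < 1 / 2) [NeZero p]
    (hK : ∃ K : ZMod p → ℝ, (∀ a, 0 ≤ K a) ∧
      ∀ b : ZMod p, ∑ a, (K a : ℂ) * ZMod.stdAddChar (a * b) =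
        kp (x / (1 - ε : ℝ)) b.valMinAbs) (hx' : ‖x' - x‖ ≤ ε / 2) :
    ∃ μ : Measure ℝ, IsProbabilityMeasure μ ∧ charFun μ ((1 : ℕ) : ℝ) = x ∧
      charFun μ (p : ℝ) = ((1 - ε : ℝ) : ℂ) ∧ charFun μ ((p + 1 : ℕ) : ℝ) = x' := by
  obtain ⟨μ, hμ, a1, a2, a3⟩ := first hp hK
  have hεc : (ε : ℂ) ≠ 0 := by exact_mod_cast h0.ne'
  have hεc' : ((1 - ε : ℝ) : ℂ) ≠ 0 := by
    have : (1 - ε : ℝ) ≠ 0 := by linarith
    exact_mod_cast this
  obtain ⟨ν, hν, b1, b2, b3⟩ := second p (by omega) ((x' - x) / ε) (by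
    rw [norm_div, Complex.norm_real, Real.norm_eq_abs, abs_of_pos h0, div_le_iff₀ h0]
    linarith)
  obtain ⟨κ, hκ, h⟩ := mix hμ hν h0.le (by linarith : ε ≤ 1)
  refine ⟨κ, hκ, ?_, ?_, ?_⟩
  · rw [h, a1, b1]
    field_simp
    ring
  · rw [h, a2, b2]
    ring
  · rw [h, a3, b3]
    field_simp
    ring

end ContJ

theorem cont : St_krein → St_dp → St_cont := by
  intro hkr hdp F hF x y hx hy
  rw [Metric.continuousAt_iff]
  intro e he
  -- values on the diagonal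
  obtain ⟨μ₀, hμ₀, c₀⟩ := ContJ.disc (ι := Bool) (fun _ => 1 / 2) (fun _ => by norm_num)
    (by simp) (fun b => if b then 1 else -1)
  have c₀' : ∀ ξ : ℝ, charFun μ₀ ξ = ((Real.cos ξ : ℝ) : ℂ) := by
    intro ξ
    rw [c₀, Fintype.sum_bool, Complex.ofReal_cos, Complex.cos]
    simp only [if_true, Bool.false_eq_true, if_false]
    push_cast
    ring_nf
  obtain ⟨μ, hμ, hμF⟩ := hF μ₀ μ₀ hμ₀ hμ₀
  have hcont : Continuous (fun ε : ℝ => (charFun μ (Real.arccos (1 - ε))).re) := by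
    refine Complex.continuous_re.comp ((MeasureTheory.continuous_charFun (μ := μ)).comp ?_)
    exact Real.continuous_arccos.comp (by fun_prop)
  have h0 : (charFun μ (Real.arccos (1 - 0))).re = 1 := by
    rw [sub_zero, Real.arccos_one, charFun_zero]
    simp
  have ht : Tendsto (fun ε : ℝ => (charFun μ (Real.arccos (1 - ε))).re) (𝓝 0) (𝓝 1) := by
    have := hcont.tendsto 0
    rwa [h0] at this
  have hev : ∀ᶠ ε : ℝ in 𝓝[>] 0, 1 - e ^ 2 / 2 < (charFun μ (Real.arccos (1 - ε))).re :=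
    (ht.mono_left nhdsWithin_le_nhds).eventually_const_lt (by
      have : 0 < e ^ 2 := by positivity
      linarith)
  have hm : 0 < min (1 / 2 : ℝ) (min (1 - ‖x‖) (1 - ‖y‖)) := by
    rw [lt_min_iff, lt_min_iff]
    exact ⟨by norm_num, by linarith, by linarith⟩
  have hev2 : ∀ᶠ ε : ℝ in 𝓝[>] 0, ε < min (1 / 2 : ℝ) (min (1 - ‖x‖) (1 - ‖y‖)) :=
    (tendsto_id.mono_left nhdsWithin_le_nhds).eventually_lt_const hm
  obtain ⟨ε, ⟨g1, g2⟩, g3⟩ := ((hev.and hev2).and self_mem_nhdsWithin).exists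
  have hε : 0 < ε := g3
  rw [lt_min_iff, lt_min_iff] at g2
  obtain ⟨k1, k2, k3⟩ := g2
  have hdiag : (F ((1 - ε : ℝ) : ℂ) ((1 - ε : ℝ) : ℂ)) = charFun μ (Real.arccos (1 - ε)) := by
    have h1 := hμF (Real.arccos (1 - ε))
    rw [c₀', Real.cos_arccos (by linarith) (by linarith)] at h1
    exact h1
  have hn : ∀ z : ℂ, ε < 1 - ‖z‖ → ‖z / (1 - ε : ℝ)‖ < 1 := by
    intro z hz
    rw [norm_div, Complex.norm_real, Real.norm_eq_abs, abs_of_pos (by linarith), div_lt_one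
      (by linarith)]
    linarith
  obtain ⟨Mx, hMx⟩ := hdp _ (hn x k2)
  obtain ⟨My, hMy⟩ := hdp _ (hn y k3)
  obtain ⟨p, hp⟩ : ∃ p, p = 2 * (Mx + My) + 3 := ⟨_, rfl⟩
  have hodd : Odd p := ⟨Mx + My + 1, by omega⟩
  have : NeZero p := ⟨by omega⟩
  refine ⟨ε / 2, by linarith, fun {z} hz => ?_⟩
  rw [Prod.dist_eq, max_lt_iff, dist_eq_norm, dist_eq_norm] at hz
  obtain ⟨m1, hm1, a1, a2, a3⟩ := ContJ.both (p := p) (x := x) (x' := z.1) (by omega) hε k1
    (hMx p (by omega) hodd) hz.1.le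
  obtain ⟨m2, hm2, b1, b2, b3⟩ := ContJ.both (p := p) (x := y) (x' := z.2) (by omega) hε k1
    (hMy p (by omega) hodd) hz.2.le
  obtain ⟨m, hm', hF'⟩ := hF m1 m2 hm1 hm2
  have f1 := hF' ((1 : ℕ) : ℝ)
  have f2 := hF' (p : ℝ)
  have f3 := hF' ((p + 1 : ℕ) : ℝ)
  rw [a1, b1] at f1
  rw [a2, b2, hdiag] at f2
  rw [a3, b3] at f3
  have hk := hkr m hm' ((p + 1 : ℕ) : ℝ) ((1 : ℕ) : ℝ)
  have hsub : ((p + 1 : ℕ) : ℝ) - ((1 : ℕ) : ℝ) = (p : ℝ) := by push_cast; ring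
  rw [hsub, ← f1, ← f2, ← f3] at hk
  rw [dist_eq_norm]
  have h5 : ‖F z.1 z.2 - F x y‖ ^ 2 < e ^ 2 := by linarith
  exact lt_of_pow_lt_pow_left₀ 2 he.le h5

end Pool.Agent.Q42.CF
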