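import Pool.Agent.Q42.CF.Stm

set_option autoImplicit false

open MeasureTheory ComplexConjugate Filter Topology

namespace Pool.Agent.Q42.CF

namespace ConvJ

/-- `φ` is a characteristic function. -/
def IsCF (φ : ℝ → ℂ) : Prop :=
  ∃ μ : Measure ℝ, IsProbabilityMeasure μ ∧ ∀ ξ : ℝ, charFun μ ξ = φ ξ

theorem cf_one : IsCF fun _ => 1 := by
  refine ⟨Measure.dirac 0, inferInstance, fun ξ => ?_⟩
  simp

theorem cf_mul {φ ψ : ℝ → ℂ} (h1 : IsCF φ) (h2 : IsCF ψ) : IsCF fun ξ => φ ξ * ψ ξ := by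
  obtain ⟨μ, hμ, h⟩ := h1
  obtain ⟨ν, hν, h'⟩ := h2
  refine ⟨Measure.conv μ ν, inferInstance, fun ξ => ?_⟩
  rw [charFun_conv, h, h']

theorem cf_pow {φ : ℝ → ℂ} (h1 : IsCF φ) (n : ℕ) : IsCF fun ξ => φ ξ ^ n := by
  induction n with
  | zero => simpa using cf_one
  | succ n ih => simpa only [pow_succ] using cf_mul ih h1

theorem cf_conj {φ : ℝ → ℂ} (h1 : IsCF φ) : IsCF fun ξ => conj (φ ξ) := by
  obtain ⟨μ, hμ, h⟩ := h1
  refine ⟨μ.map ((-1 : ℝ) * ·), ?_, fun ξ => ?_⟩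
  · exact Measure.isProbabilityMeasure_map (by fun_prop)
  · rw [charFun_map_mul, neg_one_mul, charFun_neg, h]

theorem cf_mon {φ ψ : ℝ → ℂ} (h1 : IsCF φ) (h2 : IsCF ψ) (i : ℕ × ℕ × ℕ × ℕ) :
    IsCF fun ξ => mon i (φ ξ) (ψ ξ) := by
  unfold mon
  exact cf_mul (cf_mul (cf_pow h1 _) (cf_pow (cf_conj h1) _))
    (cf_mul (cf_pow h2 _) (cf_pow (cf_conj h2) _))

end ConvJ

open ConvJ in
theorem conv : St_conv := by
  intro F ⟨a, ha0, ha1, haF⟩ μ₁ μ₂ hμ₁ hμ₂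
  have h := fun i => cf_mon (φ := charFun μ₁) (ψ := charFun μ₂) ⟨μ₁, hμ₁, fun _ => rfl⟩
    ⟨μ₂, hμ₂, fun _ => rfl⟩ i
  choose ν hν hνm using h
  have hprob : IsProbabilityMeasure (Measure.sum fun i => ENNReal.ofReal (a i) • ν i) := by
    refine ⟨?_⟩
    rw [Measure.sum_apply _ MeasurableSet.univ]
    simp only [Measure.smul_apply, measure_univ, smul_eq_mul, mul_one]
    rw [← ENNReal.ofReal_tsum_of_nonneg ha0 ha1.summable, ha1.tsum_eq, ENNReal.ofReal_one]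
  refine ⟨Measure.sum fun i => ENNReal.ofReal (a i) • ν i, hprob, fun ξ => ?_⟩
  have h1 := haF (charFun μ₁ ξ) (charFun μ₂ ξ) (norm_charFun_le_one ξ) (norm_charFun_le_one ξ)
  have h2 : HasSum (fun i => ∫ x, Complex.exp (ξ * x * Complex.I) ∂(ENNReal.ofReal (a i) • ν i))
      (∫ x, Complex.exp (ξ * x * Complex.I) ∂(Measure.sum fun i => ENNReal.ofReal (a i) • ν i)) := by
    apply hasSum_integral_measure
    refine (integrable_const (1 : ℝ)).mono (by fun_prop) (Eventually.of_forall fun x => ?_)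
    have : (ξ : ℂ) * x * Complex.I = ((ξ * x : ℝ) : ℂ) * Complex.I := by push_cast; ring
    rw [this, Complex.norm_exp_ofReal_mul_I]
    simp
  rw [← charFun_apply_real] at h2
  refine h1.unique ?_
  convert h2 using 2 with i
  rw [integral_smul_measure, ENNReal.toReal_ofReal (ha0 i), ← charFun_apply_real, hνm]
  simp [Complex.real_smul]

end Pool.Agent.Q42.CF
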