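import Pool.Agent.Q42.CF.Stm

/-! Job dp of project CF (helper42), by helper65: the discrete Poisson kernel. -/

set_option autoImplicit false

open Filter Topology ComplexConjugate

namespace Pool.Agent.Q42.CF

theorem dp_sum_Icc (f : ℤ → ℂ) (L : ℕ) :
    ∑ b ∈ Finset.Icc (-(L : ℤ)) L, f b = f 0 + ∑ b ∈ Finset.range L, (f ((b : ℤ) + 1) + f (-((b : ℤ) + 1))) := by
  induction L with
  | zero => simp
  | succ L ih =>
    have h1 : Finset.Icc (-((L + 1 : ℕ) : ℤ)) ((L + 1 : ℕ) : ℤ) =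
        insert (((L : ℤ) + 1)) (insert (-((L : ℤ) + 1)) (Finset.Icc (-(L : ℤ)) L)) := by
      ext b
      simp only [Finset.mem_Icc, Finset.mem_insert]
      push_cast
      omega
    have h2 : (-((L : ℤ) + 1)) ∉ Finset.Icc (-(L : ℤ)) L := by
      simp only [Finset.mem_Icc]
      omega
    have h3 : ((L : ℤ) + 1) ∉ insert (-((L : ℤ) + 1)) (Finset.Icc (-(L : ℤ)) L) := by
      simp only [Finset.mem_Icc, Finset.mem_insert]
      omega
    rw [h1, Finset.sum_insert h3, Finset.sum_insert h2, ih, Finset.sum_range_succ]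
    ring

theorem dp_sum_zmod (L : ℕ) [NeZero (2 * L + 1)] (f : ℤ → ℂ) :
    ∑ j : ZMod (2 * L + 1), f j.valMinAbs = ∑ b ∈ Finset.Icc (-(L : ℤ)) L, f b := by
  refine Finset.sum_bij (fun j _ => j.valMinAbs) ?_ ?_ ?_ ?_
  · intro j _
    have h := ZMod.valMinAbs_mem_Ioc j
    rw [Set.mem_Ioc] at h
    push_cast at h
    rw [Finset.mem_Icc]
    omega
  · intro j _ k _ h
    have h1 := ZMod.coe_valMinAbs j
    have h2 := ZMod.coe_valMinAbs k
    rw [← h1, ← h2, h]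
  · intro b hb
    rw [Finset.mem_Icc] at hb
    refine ⟨(b : ZMod (2 * L + 1)), Finset.mem_univ _, ?_⟩
    rw [ZMod.valMinAbs_spec]
    refine ⟨rfl, ?_⟩
    rw [Set.mem_Ioc]
    push_cast
    omega
  · intro j _
    rfl

/-- the discrete Poisson sum -/
theorem dp_real (x z : ℂ) (hz : ‖z‖ = 1) (L : ℕ) :
    ∑ b ∈ Finset.Icc (-(L : ℤ)) L, z ^ b * kp x b =
      ((1 + 2 * (∑ b ∈ Finset.range L, (x * z) ^ (b + 1)).re : ℝ) : ℂ) := by
  rw [dp_sum_Icc]
  have h0 : z ^ (0 : ℤ) * kp x 0 = 1 := by simp [kp]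
  rw [h0]
  push_cast
  congr 1
  have h1 : ∀ b : ℕ, z ^ ((b : ℤ) + 1) * kp x ((b : ℤ) + 1) + z ^ (-((b : ℤ) + 1)) * kp x (-((b : ℤ) + 1)) =
      (x * z) ^ (b + 1) + conj ((x * z) ^ (b + 1)) := by
    intro b
    have h2 : ((b : ℤ) + 1) = ((b + 1 : ℕ) : ℤ) := by push_cast; rfl
    have h3 : z⁻¹ = conj z := by
      rw [Complex.inv_def, Complex.normSq_eq_norm_sq, hz]
      simp
    rw [h2, zpow_neg, zpow_natCast]
    unfold kp
    rw [neg_neg, Int.toNat_natCast]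
    have h4 : (-((b + 1 : ℕ) : ℤ)).toNat = 0 := by omega
    rw [h4, pow_zero, mul_one, pow_zero, one_mul, ← inv_pow, h3, mul_pow, map_mul, map_pow, map_pow]
    ring
  rw [Finset.sum_congr rfl fun b _ => h1 b, Finset.sum_add_distrib, ← map_sum, Complex.add_conj]
  push_cast
  ring

theorem dp_nonneg (x z : ℂ) (hx : ‖x‖ < 1) (hz : ‖z‖ = 1) (L : ℕ) (hL : 2 * ‖x‖ ^ (L + 1) ≤ 1 - ‖x‖) :
    0 ≤ 1 + 2 * (∑ b ∈ Finset.range L, (x * z) ^ (b + 1)).re := by
  set w := x * z with hw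
  have hwn : ‖w‖ = ‖x‖ := by rw [hw, norm_mul, hz, mul_one]
  set S := ∑ b ∈ Finset.range L, w ^ (b + 1) with hS
  have hw1 : w ≠ 1 := by
    intro h
    rw [h, norm_one] at hwn
    linarith
  have hgeo : (1 - w) * (1 + 2 * S) = 1 + w - 2 * w ^ (L + 1) := by
    have h1 : S * (w - 1) = w ^ (L + 1) - w := by
      have h2 : S = w * ∑ b ∈ Finset.range L, w ^ b := by
        rw [hS, Finset.mul_sum]
        exact Finset.sum_congr rfl fun b _ => by ring
      have h3 := geom_sum_mul w L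
      rw [h2, mul_assoc, h3]
      ring
    linear_combination -2 * h1
  have h1w : 1 - w ≠ 0 := sub_ne_zero.mpr (Ne.symm hw1)
  have hns : 0 < ‖1 - w‖ ^ 2 := by
    have := norm_pos_iff.mpr h1w
    positivity
  have hmul : ‖1 - w‖ ^ 2 * (1 + 2 * S.re) = ((1 + w - 2 * w ^ (L + 1)) * conj (1 - w)).re := by
    rw [← hgeo]
    have h4 : (1 - w) * (1 + 2 * S) * conj (1 - w) = ((‖1 - w‖ ^ 2 : ℝ) : ℂ) * (1 + 2 * S) := by
      rw [← Complex.normSq_eq_norm_sq, ← Complex.mul_conj]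
      ring
    rw [h4, Complex.re_ofReal_mul]
    simp
  have hre1 : ((1 + w) * conj (1 - w)).re = 1 - ‖x‖ ^ 2 := by
    rw [← hwn, ← Complex.normSq_eq_norm_sq, Complex.normSq_apply]
    simp
    ring
  have hre2 : (2 * w ^ (L + 1) * conj (1 - w)).re ≤ 2 * ‖x‖ ^ (L + 1) * (1 + ‖x‖) := by
    refine (Complex.re_le_norm _).trans ?_
    rw [norm_mul, norm_mul, norm_pow, Complex.norm_conj, hwn]
    have h5 : ‖1 - w‖ ≤ 1 + ‖x‖ := by
      have := norm_sub_le (1 : ℂ) w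
      rw [norm_one, hwn] at this
      exact this
    have h6 : ‖(2 : ℂ)‖ = 2 := by simp
    rw [h6]
    exact mul_le_mul_of_nonneg_left h5 (by positivity)
  have hx0 := norm_nonneg x
  have hkey : 0 ≤ ‖1 - w‖ ^ 2 * (1 + 2 * S.re) := by
    rw [hmul, sub_mul, Complex.sub_re, hre1]
    have h7 : 2 * ‖x‖ ^ (L + 1) * (1 + ‖x‖) ≤ (1 - ‖x‖) * (1 + ‖x‖) :=
      mul_le_mul_of_nonneg_right hL (by linarith)
    have h8 : (1 - ‖x‖) * (1 + ‖x‖) = 1 - ‖x‖ ^ 2 := by ring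
    linarith
  exact nonneg_of_mul_nonneg_right hkey hns

theorem dp : St_dp := by
  intro x hx
  -- choice of the bound
  have hlim : Tendsto (fun L : ℕ => 2 * ‖x‖ ^ (L + 1)) atTop (𝓝 0) := by
    have h1 := (tendsto_pow_atTop_nhds_zero_of_lt_one (norm_nonneg x) hx).comp (tendsto_add_atTop_nat 1)
    have h2 := h1.const_mul 2
    simpa using h2
  have hev : ∀ᶠ L : ℕ in atTop, 2 * ‖x‖ ^ (L + 1) ≤ 1 - ‖x‖ := by
    have h3 : (0 : ℝ) < 1 - ‖x‖ := by linarith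
    filter_upwards [hlim.eventually (gt_mem_nhds h3)] with L hL
    exact hL.le
  obtain ⟨L₀, hL₀⟩ := eventually_atTop.mp hev
  refine ⟨2 * L₀ + 1, fun M hM hodd _ => ?_⟩
  obtain ⟨L, rfl⟩ := hodd
  have hL := hL₀ L (by omega)
  set κ : ZMod (2 * L + 1) → ℂ := fun j => kp x j.valMinAbs with hκ
  have hM0 : ((2 * L + 1 : ℕ) : ℂ) ≠ 0 := by
    have : (2 * L + 1 : ℕ) ≠ 0 := by omega
    exact_mod_cast this
  have hz : ∀ a : ZMod (2 * L + 1), ‖(ZMod.stdAddChar (-a) : ℂ)‖ = 1 := fun a => by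
    exact AddChar.norm_apply _ _
  have hdft : ∀ a : ZMod (2 * L + 1), ZMod.dft κ a =
      ((1 + 2 * (∑ b ∈ Finset.range L, (x * ZMod.stdAddChar (-a)) ^ (b + 1)).re : ℝ) : ℂ) := by
    intro a
    rw [ZMod.dft_apply, ← dp_real x _ (hz a), ← dp_sum_zmod L (fun b => (ZMod.stdAddChar (-a) : ℂ) ^ b * kp x b)]
    refine Finset.sum_congr rfl fun j _ => ?_
    rw [smul_eq_mul]
    congr 1
    have h4 : -(j * a) = j.valMinAbs • (-a) := by
      rw [zsmul_eq_mul, ZMod.coe_valMinAbs]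
      ring
    rw [h4, AddChar.map_zsmul_eq_zpow]
  refine ⟨fun a => ((2 * L + 1 : ℕ) : ℝ)⁻¹ * (1 + 2 * (∑ b ∈ Finset.range L, (x * ZMod.stdAddChar (-a)) ^ (b + 1)).re),
    fun a => ?_, fun b => ?_⟩
  · exact mul_nonneg (by positivity) (dp_nonneg x _ hx (hz a) L hL)
  · have h5 : κ b = kp x b.valMinAbs := rfl
    rw [← h5]
    have h6 : ZMod.dft.symm (ZMod.dft κ) b = κ b := by rw [LinearEquiv.symm_apply_apply]
    rw [← h6, ZMod.invDFT_apply, smul_eq_mul, Finset.mul_sum]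
    refine Finset.sum_congr rfl fun a _ => ?_
    rw [hdft a, smul_eq_mul]
    push_cast
    ring

end Pool.Agent.Q42.CF
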