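import Pool.Agent.Q42.CF.Stm

set_option autoImplicit false

open MeasureTheory ComplexConjugate Filter Topology

namespace Pool.Agent.Q42.CF

theorem krein : St_krein := by
  intro μ hμ ξ η
  have hint : ∀ t : ℝ, Integrable (fun x : ℝ => Complex.exp (t * x * Complex.I)) μ := by
    intro t
    refine (integrable_const (1 : ℝ)).mono (by fun_prop) (Eventually.of_forall fun x => ?_)
    have : (t : ℂ) * x * Complex.I = ((t * x : ℝ) : ℂ) * Complex.I := by push_cast; ring
    rw [this, Complex.norm_exp_ofReal_mul_I]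
    simp
  obtain ⟨f, hf⟩ : ∃ f : ℝ → ℂ, f = fun x : ℝ => Complex.exp (ξ * x * Complex.I) -
      Complex.exp (η * x * Complex.I) := ⟨_, rfl⟩
  have hfi : Integrable f μ := by rw [hf]; exact (hint ξ).sub (hint η)
  have hre : ∀ t x : ℝ, (Complex.exp (t * x * Complex.I)).re = Real.cos (t * x) := by
    intro t x
    have : (t : ℂ) * x * Complex.I = ((t * x : ℝ) : ℂ) * Complex.I := by push_cast; ring
    rw [this, Complex.exp_ofReal_mul_I_re]
  have him : ∀ t x : ℝ, (Complex.exp (t * x * Complex.I)).im = Real.sin (t * x) := by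
    intro t x
    have : (t : ℂ) * x * Complex.I = ((t * x : ℝ) : ℂ) * Complex.I := by push_cast; ring
    rw [this, Complex.exp_ofReal_mul_I_im]
  have hsq : ∀ x, ‖f x‖ ^ 2 = 2 * (1 - (Complex.exp ((ξ - η : ℝ) * x * Complex.I)).re) := by
    intro x
    rw [hre, hf, Complex.sq_norm, Complex.normSq_apply]
    simp only [Complex.sub_re, Complex.sub_im, hre, him]
    have h1 : (ξ - η) * x = ξ * x - η * x := by ring
    rw [h1, Real.cos_sub]
    nlinarith [Real.sin_sq_add_cos_sq (ξ * x), Real.sin_sq_add_cos_sq (η * x)]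
  have hsqi : Integrable (fun x => ‖f x‖ ^ 2) μ := by
    simp_rw [hsq]
    exact ((integrable_const 1).sub (hint (ξ - η)).re).const_mul 2
  have e1 : charFun μ ξ - charFun μ η = ∫ x, f x ∂μ := by
    rw [charFun_apply_real, charFun_apply_real, hf, integral_sub (hint ξ) (hint η)]
  have e2 : ∫ x, ‖f x‖ ^ 2 ∂μ = 2 * (1 - (charFun μ (ξ - η)).re) := by
    simp_rw [hsq]
    have h3 : Integrable (fun x : ℝ => (Complex.exp (((ξ - η : ℝ) : ℂ) * x * Complex.I)).re) μ :=
      (hint (ξ - η)).re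
    rw [integral_const_mul, integral_sub (integrable_const 1) h3, charFun_apply_real]
    have := integral_re (hint (ξ - η))
    simp only [RCLike.re_to_complex] at this
    rw [this]
    simp
  rw [e1, ← e2]
  have h1 : ‖∫ x, f x ∂μ‖ ≤ ∫ x, ‖f x‖ ∂μ := norm_integral_le_integral_norm f
  obtain ⟨m, hm⟩ : ∃ m, m = ∫ x, ‖f x‖ ∂μ := ⟨_, rfl⟩
  have h2 : 0 ≤ ∫ x, (‖f x‖ ^ 2 - (2 * m) * ‖f x‖ + m ^ 2) ∂μ := by
    apply integral_nonneg
    intro x
    have : ‖f x‖ ^ 2 - (2 * m) * ‖f x‖ + m ^ 2 = (‖f x‖ - m) ^ 2 := by ring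
    simp only [this]
    positivity
  have h4 : Integrable (fun x => (2 * m) * ‖f x‖) μ := hfi.norm.const_mul _
  have h5 : Integrable (fun x => ‖f x‖ ^ 2 - (2 * m) * ‖f x‖) μ := hsqi.sub h4
  rw [integral_add h5 (integrable_const _), integral_sub hsqi h4, integral_const_mul, ← hm] at h2
  simp only [integral_const, probReal_univ, smul_eq_mul, one_mul] at h2
  rw [← hm] at h1
  have h3 : ‖∫ x, f x ∂μ‖ ^ 2 ≤ m ^ 2 := pow_le_pow_left₀ (norm_nonneg _) h1 2
  nlinarith

end Pool.Agent.Q42.CF
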