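import Pool.Agent.Q42.CF.Stm

/-!
# Project CF: job lln (helper251): weak law of large numbers for finite product weights
-/

set_option autoImplicit false

open MeasureTheory ComplexConjugate Filter Topology

namespace Pool.Agent.Q42.CF

theorem lln_prod {I : Type} [Fintype I] [DecidableEq I] {Z : I → Type} [∀ i, Fintype (Z i)]
    (K : (i : I) → Z i → ℂ) (w : (i : I) → Z i → ℂ) (i j : I) :
    ∑ a : (i : I) → Z i, (∏ k, K k (a k)) * (w i (a i) * conj (w j (a j))) =
      ∏ k, ∑ b, K k b * ((if k = i then w k b else 1) * (if k = j then conj (w k b) else 1)) := by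
  classical
  rw [Finset.prod_univ_sum, Fintype.piFinset_univ]
  refine Finset.sum_congr rfl fun a _ => ?_
  rw [Finset.prod_mul_distrib, Finset.prod_mul_distrib]
  congr 1
  rw [Finset.prod_ite_eq' Finset.univ i (fun k => w k (a k)), if_pos (Finset.mem_univ _),
    Finset.prod_ite_eq' Finset.univ j (fun k => conj (w k (a k))), if_pos (Finset.mem_univ _)]

theorem lln_var {A : Type} [Fintype A] (K : A → ℝ) (hK : ∀ a, 0 ≤ K a) (hK1 : ∑ a, K a = 1)
    (z : A → ℂ) (hz : ∀ a, ‖z a‖ ≤ 1) (x : ℂ) (hm : ∑ a, (K a : ℂ) * z a = x) :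
    ∑ a, K a * ‖z a - x‖ ^ 2 ≤ 1 := by
  have h1 : ∀ a, K a * ‖z a - x‖ ^ 2 =
      K a * ‖z a‖ ^ 2 - 2 * ((K a : ℂ) * z a * conj x).re + K a * ‖x‖ ^ 2 := by
    intro a
    rw [mul_assoc, Complex.re_ofReal_mul, ← Complex.normSq_eq_norm_sq, ← Complex.normSq_eq_norm_sq,
      ← Complex.normSq_eq_norm_sq, Complex.normSq_sub]
    ring
  simp only [h1]
  rw [Finset.sum_add_distrib, Finset.sum_sub_distrib, ← Finset.mul_sum, ← Finset.sum_mul, hK1,
    ← Complex.re_sum, ← Finset.sum_mul, hm, Complex.mul_conj, Complex.ofReal_re,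
    Complex.normSq_eq_norm_sq]
  have h2 : ∑ a, K a * ‖z a‖ ^ 2 ≤ 1 := by
    rw [← hK1]
    refine Finset.sum_le_sum fun a _ => ?_
    have h3 : ‖z a‖ ^ 2 ≤ 1 := pow_le_one₀ (norm_nonneg _) (hz a)
    calc K a * ‖z a‖ ^ 2 ≤ K a * 1 := mul_le_mul_of_nonneg_left h3 (hK a)
      _ = K a := mul_one _
  nlinarith [sq_nonneg ‖x‖]

theorem lln : St_lln := by
  intro I _ _ Z _ K hK hK1 z hz x p hp hp1 hmean
  classical
  have hK1' : ∀ i, ∑ a, (K i a : ℂ) = 1 := by
    intro i
    rw [← Complex.ofReal_sum, hK1, Complex.ofReal_one]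
  have hmw : ∀ i, p i ≠ 0 → ∑ a, (K i a : ℂ) * (z i a - x) = 0 := by
    intro i hi
    simp only [mul_sub, Finset.sum_sub_distrib, ← Finset.sum_mul]
    rw [hmean i hi, hK1', one_mul, sub_self]
  have hS : ∀ a : (i : I) → Z i, ∑ i, (p i : ℂ) * z i (a i) - x =
      ∑ i, (p i : ℂ) * (z i (a i) - x) := by
    intro a
    simp only [mul_sub, Finset.sum_sub_distrib, ← Finset.sum_mul]
    rw [← Complex.ofReal_sum, hp1, Complex.ofReal_one, one_mul]
  have hE : ∀ i j, (p i : ℂ) * (p j : ℂ) * ∑ a : (i : I) → Z i, (∏ k, (K k (a k) : ℂ)) *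
      ((z i (a i) - x) * conj (z j (a j) - x)) =
      if i = j then ((p i ^ 2 * ∑ b, K i b * ‖z i b - x‖ ^ 2 : ℝ) : ℂ) else 0 := by
    intro i j
    rw [lln_prod (fun k b => (K k b : ℂ)) (fun k b => z k b - x) i j]
    split_ifs with h
    · subst h
      rw [Finset.prod_eq_single i]
      · rw [Complex.ofReal_mul, Complex.ofReal_pow, Complex.ofReal_sum]
        rw [sq]
        congr 1
        refine Finset.sum_congr rfl fun b _ => ?_
        rw [if_pos rfl, if_pos rfl, Complex.mul_conj, Complex.normSq_eq_norm_sq,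
          Complex.ofReal_mul]
      · intro k _ hk
        simp only [if_neg hk, mul_one]
        exact hK1' k
      · intro h
        exact absurd (Finset.mem_univ _) h
    · by_cases hi : p i = 0
      · rw [hi, Complex.ofReal_zero, zero_mul, zero_mul]
      · rw [Finset.prod_eq_zero (Finset.mem_univ i), mul_zero]
        simp only [if_true, if_neg h, mul_one]
        exact hmw i hi
  have hmain : ∑ a : (i : I) → Z i, (∏ i, K i (a i)) * ‖∑ i, (p i : ℂ) * z i (a i) - x‖ ^ 2 =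
      ∑ i, p i ^ 2 * ∑ b, K i b * ‖z i b - x‖ ^ 2 := by
    apply Complex.ofReal_injective
    rw [Complex.ofReal_sum, Complex.ofReal_sum]
    have h1 : ∀ a : (i : I) → Z i,
        (((∏ i, K i (a i)) * ‖∑ i, (p i : ℂ) * z i (a i) - x‖ ^ 2 : ℝ) : ℂ) =
        ∑ i, ∑ j, (p i : ℂ) * (p j : ℂ) * ((∏ k, (K k (a k) : ℂ)) *
          ((z i (a i) - x) * conj (z j (a j) - x))) := by
      intro a
      rw [Complex.ofReal_mul, Complex.ofReal_prod, ← Complex.normSq_eq_norm_sq,
        ← Complex.mul_conj, hS, map_sum, Finset.sum_mul_sum, Finset.mul_sum]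
      refine Finset.sum_congr rfl fun i _ => ?_
      rw [Finset.mul_sum]
      refine Finset.sum_congr rfl fun j _ => ?_
      rw [map_mul, Complex.conj_ofReal]
      ring
    simp only [h1]
    rw [Finset.sum_comm]
    refine Finset.sum_congr rfl fun i _ => ?_
    rw [Finset.sum_comm]
    have h2 : ∀ j, ∑ a : (i : I) → Z i, (p i : ℂ) * (p j : ℂ) * ((∏ k, (K k (a k) : ℂ)) *
          ((z i (a i) - x) * conj (z j (a j) - x))) =
        if i = j then ((p i ^ 2 * ∑ b, K i b * ‖z i b - x‖ ^ 2 : ℝ) : ℂ) else 0 := by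
      intro j
      rw [← Finset.mul_sum]
      exact hE i j
    simp only [h2]
    rw [Finset.sum_ite_eq, if_pos (Finset.mem_univ _)]
  rw [hmain]
  refine Finset.sum_le_sum fun i _ => ?_
  by_cases hi : p i = 0
  · rw [hi]
    simp
  · have h1 := lln_var (K i) (hK i) (hK1 i) (z i) (hz i) x (hmean i hi)
    calc p i ^ 2 * ∑ b, K i b * ‖z i b - x‖ ^ 2 ≤ p i ^ 2 * 1 :=
          mul_le_mul_of_nonneg_left h1 (sq_nonneg _)
      _ = p i ^ 2 := mul_one _

end Pool.Agent.Q42.CF
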