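import Pool.Agent.Q42.CF.Stm

/-! Project CF, job pos. -/

set_option autoImplicit false
set_option linter.unusedVariables false
set_option linter.unusedSectionVars false

open MeasureTheory ComplexConjugate Filter Topology

noncomputable section

namespace Pool.Agent.Q42.CF

section pos

variable {I : Type} [Fintype I] [DecidableEq I] (M : I → ℕ) [∀ i, NeZero (M i)]

/-- the finite measure on the points `1 / M i` -/
def mM (p : I → ℝ) : Measure ℝ := ∑ i, ENNReal.ofReal (p i) • Measure.dirac (1 / (M i : ℝ))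

theorem mM_prob {p : I → ℝ} (hp : ∀ i, 0 ≤ p i) (hp1 : ∑ i, p i = 1) :
    IsProbabilityMeasure (mM M p) := by
  constructor
  unfold mM
  rw [Measure.finsetSum_apply]
  have h1 : ∀ i : I, (ENNReal.ofReal (p i) • Measure.dirac (1 / (M i : ℝ))) Set.univ =
      ENNReal.ofReal (p i) := by
    intro i
    rw [Measure.smul_apply, measure_univ, smul_eq_mul, mul_one]
  rw [Finset.sum_congr rfl fun i _ => h1 i, ← ENNReal.ofReal_sum_of_nonneg fun i _ => hp i, hp1,
    ENNReal.ofReal_one]

theorem mM_char {p : I → ℝ} (hp : ∀ i, 0 ≤ p i) (n : ℤ) :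
    charFun (mM M p) (2 * Real.pi * n) =
      ∑ i, (p i : ℂ) * ZMod.stdAddChar ((n : ZMod (M i))) := by
  rw [charFun_apply_real]
  unfold mM
  rw [integral_finsetSum_measure]
  · refine Finset.sum_congr rfl fun i _ => ?_
    rw [integral_smul_measure, integral_dirac, ENNReal.toReal_ofReal (hp i), ZMod.stdAddChar_coe,
      Complex.real_smul]
    congr 2
    push_cast
    ring
  · intro i _
    exact (integrable_dirac (by simp)).smul_measure (by simp)

theorem crt (hM : Pairwise fun i j => Nat.Coprime (M i) (M j)) (a : (i : I) → ZMod (M i)) :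
    ∃ n : ℤ, ∀ i, (n : ZMod (M i)) = a i := by
  obtain ⟨b, hb⟩ := (ZMod.prodEquivPi M hM).surjective a
  obtain ⟨n, hn⟩ := ZMod.intCast_surjective b
  refine ⟨n, fun i => ?_⟩
  rw [← hb, ← hn, map_intCast]
  rfl

/-- the characters of the product -/
def ps (b a : (i : I) → ZMod (M i)) : ℂ := ∏ i, ZMod.stdAddChar (a i * b i)

theorem ps_add (b a a' : (i : I) → ZMod (M i)) : ps M b (a + a') = ps M b a * ps M b a' := by
  unfold ps
  rw [← Finset.prod_mul_distrib]
  refine Finset.prod_congr rfl fun i _ => ?_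
  rw [Pi.add_apply, add_mul, AddChar.map_add_eq_mul]

theorem ps_zero (b : (i : I) → ZMod (M i)) : ps M b 0 = 1 := by
  unfold ps
  refine Finset.prod_eq_one fun i _ => ?_
  rw [Pi.zero_apply, zero_mul, AddChar.map_zero_eq_one]

theorem ps_neg (b a : (i : I) → ZMod (M i)) : ps M b (-a) = conj (ps M b a) := by
  unfold ps
  rw [map_prod]
  refine Finset.prod_congr rfl fun i _ => ?_
  rw [Pi.neg_apply, neg_mul, ZMod.stdAddChar_apply, ZMod.stdAddChar_apply, AddChar.map_neg_eq_inv,
    ← Circle.coe_inv_eq_conj]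

theorem ps_sum (d : (i : I) → ZMod (M i)) :
    ∑ b, ps M b d = if d = 0 then (Fintype.card ((i : I) → ZMod (M i)) : ℂ) else 0 := by
  unfold ps
  have h1 : ∑ b : (i : I) → ZMod (M i), ∏ i, ZMod.stdAddChar (d i * b i) =
      ∏ i, ∑ x : ZMod (M i), ZMod.stdAddChar (d i * x) :=
    (Finset.prod_univ_sum (fun i => (Finset.univ : Finset (ZMod (M i))))
      (fun i x => ZMod.stdAddChar (d i * x))).symm ▸ by
        rw [Fintype.piFinset_univ]
  rw [h1]
  have h2 : ∀ i, ∑ x : ZMod (M i), (ZMod.stdAddChar (d i * x) : ℂ) =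
      ((if d i = 0 then Fintype.card (ZMod (M i)) else 0 : ℕ) : ℂ) := by
    intro i
    rw [← AddChar.sum_mulShift (d i) (ZMod.isPrimitive_stdAddChar (M i))]
    exact Finset.sum_congr rfl fun x _ => by rw [mul_comm]
  rw [Finset.prod_congr rfl fun i _ => h2 i]
  by_cases hd : d = 0
  · rw [if_pos hd, Fintype.card_pi]
    push_cast
    refine Finset.prod_congr rfl fun i _ => ?_
    have h3 : d i = 0 := congrFun hd i
    rw [if_pos h3]
  · rw [if_neg hd]
    obtain ⟨i, hi⟩ := Function.ne_iff.1 hd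
    refine Finset.prod_eq_zero (Finset.mem_univ i) ?_
    have h3 : ¬ d i = 0 := hi
    rw [if_neg h3, Nat.cast_zero]

end pos

theorem pos : St_pos := by
  intro F hF I _ _ M _ hM p q hp hq hp1 hq1
  obtain ⟨μ, hμ, hFμ⟩ := hF _ _ (mM_prob M hp hp1) (mM_prob M hq hq1)
  choose n hn using crt M hM
  set h : ((i : I) → ZMod (M i)) → ℂ := fun a =>
    F (∑ i, (p i : ℂ) * ZMod.stdAddChar (a i)) (∑ i, (q i : ℂ) * ZMod.stdAddChar (a i)) with hh
  have h1 : ∀ (k : ℤ) (a : (i : I) → ZMod (M i)), (∀ i, (k : ZMod (M i)) = a i) →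
      h a = charFun μ (2 * Real.pi * k) := by
    intro k a hk
    rw [← hFμ, mM_char M hp, mM_char M hq, hh]
    simp only [hk]
  set C : ℂ := (Fintype.card ((i : I) → ZMod (M i)) : ℂ) with hC
  have hC0 : C ≠ 0 := by
    rw [hC]
    exact_mod_cast Fintype.card_ne_zero
  set S : ((i : I) → ZMod (M i)) → ℂ := fun b => ∑ a, h a * ps M b (-a) with hS
  have hpos : ∀ b, ∃ c : ℝ, 0 ≤ c ∧ C * S b = c := by
    intro b
    set g : ℝ → ℂ := fun x =>
      ∑ a, Complex.exp ((2 * Real.pi * n a : ℝ) * x * Complex.I) * ps M b (-a) with hg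
    refine ⟨∫ x, ‖g x‖ ^ 2 ∂μ, integral_nonneg fun x => by positivity, ?_⟩
    have h2 : ((∫ x, ‖g x‖ ^ 2 ∂μ : ℝ) : ℂ) = ∫ x, g x * conj (g x) ∂μ := by
      have h2' : ∫ x, ((‖g x‖ ^ 2 : ℝ) : ℂ) ∂μ = ((∫ x, ‖g x‖ ^ 2 ∂μ : ℝ) : ℂ) :=
        integral_ofReal (f := fun x => ‖g x‖ ^ 2)
      rw [← h2']
      congr 1
      funext x
      rw [Complex.mul_conj, Complex.normSq_eq_norm_sq]
    have h3 : ∀ x, g x * conj (g x) = ∑ a, ∑ a', ps M b (-(a - a')) *
        Complex.exp ((2 * Real.pi * (n a - n a' : ℤ) : ℝ) * x * Complex.I) := by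
      intro x
      rw [hg]
      simp only
      rw [map_sum, Finset.sum_mul_sum]
      refine Finset.sum_congr rfl fun a _ => Finset.sum_congr rfl fun a' _ => ?_
      rw [map_mul, ← Complex.exp_conj, ← ps_neg, neg_neg,
        show -(a - a') = -a + a' by abel, ps_add]
      have h4 : Complex.exp ((2 * Real.pi * (n a - n a' : ℤ) : ℝ) * x * Complex.I) =
          Complex.exp ((2 * Real.pi * n a : ℝ) * x * Complex.I) *
          Complex.exp (conj ((2 * Real.pi * n a' : ℝ) * x * Complex.I)) := by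
        rw [← Complex.exp_add]
        congr 1
        simp only [map_mul, Complex.conj_ofReal, Complex.conj_I]
        push_cast
        ring
      rw [h4]
      ring
    have hint : ∀ t : ℝ, Integrable (fun x : ℝ => Complex.exp ((t : ℂ) * x * Complex.I)) μ := by
      intro t
      refine Integrable.of_bound (C := 1) (by fun_prop) (Eventually.of_forall fun x => ?_)
      rw [show (t : ℂ) * x * Complex.I = ((t * x : ℝ) : ℂ) * Complex.I by push_cast; ring,
        Complex.norm_exp_ofReal_mul_I]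
    rw [h2]
    simp only [h3]
    rw [integral_finsetSum _ (fun a _ => integrable_finsetSum _ fun a' _ =>
      (hint (2 * Real.pi * (n a - n a' : ℤ))).const_mul _)]
    have h5 : ∀ a, ∫ x, ∑ a', ps M b (-(a - a')) *
        Complex.exp ((2 * Real.pi * (n a - n a' : ℤ) : ℝ) * x * Complex.I) ∂μ = S b := by
      intro a
      rw [integral_finsetSum _ (fun a' _ => (hint (2 * Real.pi * (n a - n a' : ℤ))).const_mul _)]
      have h6 : ∀ a', ∫ x, ps M b (-(a - a')) *
          Complex.exp ((2 * Real.pi * (n a - n a' : ℤ) : ℝ) * x * Complex.I) ∂μ =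
          h (a - a') * ps M b (-(a - a')) := by
        intro a'
        rw [integral_const_mul, mul_comm, h1 (n a - n a') (a - a') (fun i => by
          rw [Int.cast_sub, hn, hn, Pi.sub_apply]), charFun_apply_real]
      rw [Finset.sum_congr rfl fun a' _ => h6 a', hS]
      exact Fintype.sum_equiv (Equiv.subLeft a) _ _ fun a' => rfl
    rw [Finset.sum_congr rfl fun a _ => h5 a, Finset.sum_const, Finset.card_univ, nsmul_eq_mul]
  choose c0 hc0 hc0' using hpos
  have hCr : C = ((Fintype.card ((i : I) → ZMod (M i)) : ℝ) : ℂ) := by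
    rw [hC]
    norm_cast
  have hinv : ∀ a, ∑ b, C⁻¹ * S b * ps M b a = h a := by
    intro a
    have h2 : ∀ b, C⁻¹ * S b * ps M b a = ∑ a', C⁻¹ * h a' * ps M b (a - a') := by
      intro b
      rw [hS]
      simp only
      rw [Finset.mul_sum, Finset.sum_mul]
      refine Finset.sum_congr rfl fun a' _ => ?_
      rw [show a - a' = -a' + a by abel, ps_add]
      ring
    rw [Finset.sum_congr rfl fun b _ => h2 b, Finset.sum_comm]
    have h3 : ∀ a', ∑ b, C⁻¹ * h a' * ps M b (a - a') = if a = a' then h a' else 0 := by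
      intro a'
      rw [← Finset.mul_sum, ps_sum]
      by_cases haa : a = a'
      · rw [if_pos haa, if_pos (sub_eq_zero.2 haa), ← hC]
        field_simp
      · rw [if_neg haa, if_neg (fun h => haa (sub_eq_zero.1 h)), mul_zero]
    rw [Finset.sum_congr rfl fun a' _ => h3 a', Finset.sum_ite_eq, if_pos (Finset.mem_univ _)]
  set N : ℝ := (Fintype.card ((i : I) → ZMod (M i)) : ℝ) with hN
  have hN0 : 0 < N := by
    rw [hN]
    exact_mod_cast Fintype.card_pos
  have hcb : ∀ b, (((c0 b / N ^ 2 : ℝ)) : ℂ) = C⁻¹ * S b := by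
    intro b
    push_cast
    rw [← hc0' b, ← hCr]
    field_simp
  have hfin : ∀ a, h a = ∑ b, (((c0 b / N ^ 2 : ℝ)) : ℂ) * ps M b a := by
    intro a
    rw [← hinv a]
    exact Finset.sum_congr rfl fun b _ => by rw [hcb b]
  refine ⟨fun b => c0 b / N ^ 2, fun b => div_nonneg (hc0 b) (by positivity), ?_, fun a => hfin a⟩
  have h7 := hfin 0
  have h8 : h 0 = 1 := by
    rw [h1 0 0 (fun i => by simp)]
    simp
  rw [h8] at h7
  have h9 : (1 : ℂ) = ((∑ b, c0 b / N ^ 2 : ℝ) : ℂ) := by
    rw [h7, Complex.ofReal_sum]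
    exact Finset.sum_congr rfl fun b _ => by rw [ps_zero, mul_one]
  exact_mod_cast h9.symm

end Pool.Agent.Q42.CF
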